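import Mathlib

set_option autoImplicit false

namespace Pool.Agent.H.MP_02f3ba_co

open Polynomial Finset

/-- truncated squared norm of the coefficient sequence -/
noncomputable def nsq (T : ℕ) (f : ℝ[X]) : ℝ := ∑ n ∈ range T, (f.coeff n) ^ 2

/-- damped sum along multiples of `d` -/
noncomputable def Qp (E d : ℕ) : ℝ[X] :=
  ∑ j ∈ range (E ^ 2), C ((1 - 1 / (E : ℝ)) ^ j) * X ^ (d * j)

/-- the filter killing sums along progressions of difference `d` -/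
noncomputable def Ap (E d : ℕ) : ℝ[X] := (1 - X ^ d) * Qp E d

/-- product of the filters over a finite set of differences -/
noncomputable def AS (E : ℕ → ℕ) (S : Finset ℕ) : ℝ[X] := ∏ d ∈ S, Ap (E d) d

/-- the filters in the dyadic band `[2^k, 2^(k+1))` -/
noncomputable def PB (E : ℕ → ℕ) (k : ℕ) : ℝ[X] := AS E (Ico (2 ^ k) (2 ^ (k + 1)))

/-! ### Auxiliary facts -/

lemma nsq_nonneg (T : ℕ) (f : ℝ[X]) : 0 ≤ nsq T f := sum_nonneg fun _ _ => sq_nonneg _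

lemma coeff_one_sub_mul (r : ℝ) (d : ℕ) (u : ℝ[X]) (n : ℕ) :
    ((1 - C r * X ^ d) * u).coeff n = u.coeff n - r * (X ^ d * u).coeff n := by
  rw [sub_mul, one_mul, coeff_sub, mul_assoc, coeff_C_mul]

lemma sum_shift_le (T d : ℕ) (u : ℝ[X]) :
    ∑ n ∈ range T, ((X ^ d * u).coeff n) ^ 2 ≤ nsq T u := by
  have h1 : ∀ n, (X ^ d * u).coeff n = if d ≤ n then u.coeff (n - d) else 0 := fun n =>
    coeff_X_pow_mul' u d n
  simp only [h1, nsq]
  rcases le_total T d with h | h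
  · refine le_trans (le_of_eq ?_) (sum_nonneg fun _ _ => sq_nonneg _)
    refine sum_eq_zero fun n hn => ?_
    rw [mem_range] at hn
    rw [if_neg (by omega)]; norm_num
  · obtain ⟨m, rfl⟩ := Nat.exists_eq_add_of_le h
    rw [sum_range_add (fun n => (if d ≤ n then u.coeff (n - d) else 0) ^ 2) d m]
    have e1 : ∑ x ∈ range d, (if d ≤ x then u.coeff (x - d) else 0) ^ 2 = 0 := by
      refine sum_eq_zero fun n hn => ?_
      rw [mem_range] at hn
      rw [if_neg (by omega)]; norm_num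
    have e2 : ∀ x, (if d ≤ d + x then u.coeff (d + x - d) else 0) ^ 2 = (u.coeff x) ^ 2 := by
      intro x
      rw [if_pos (Nat.le_add_right d x), Nat.add_sub_cancel_left]
    rw [e1, zero_add]
    simp only [e2]
    exact sum_le_sum_of_subset_of_nonneg (range_mono (by omega)) fun _ _ _ => sq_nonneg _

lemma nsq_diff_le {r : ℝ} (hr0 : 0 ≤ r) (hr1 : r ≤ 1) (T d : ℕ) (u : ℝ[X]) :
    (1 + r) ^ 2 * nsq T ((1 - X ^ d) * u) ≤ 4 * nsq T ((1 - C r * X ^ d) * u) := by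
  have hc : ∀ n, ((1 - X ^ d) * u).coeff n = u.coeff n - (X ^ d * u).coeff n := by
    intro n
    rw [sub_mul, one_mul, coeff_sub]
  have h1 := sum_shift_le T d u
  simp only [nsq, hc, coeff_one_sub_mul] at h1 ⊢
  rw [mul_sum, mul_sum, ← sub_nonneg, ← sum_sub_distrib]
  have h2 : ∀ n, 4 * (u.coeff n - r * (X ^ d * u).coeff n) ^ 2
      - (1 + r) ^ 2 * (u.coeff n - (X ^ d * u).coeff n) ^ 2
      = (1 - r) ^ 2 * (u.coeff n + (X ^ d * u).coeff n) ^ 2
        + 2 * (1 - r ^ 2) * (u.coeff n ^ 2 - ((X ^ d * u).coeff n) ^ 2) := by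
    intro n; ring
  simp only [h2, sum_add_distrib, ← mul_sum, sum_sub_distrib]
  have h3 : 0 ≤ ∑ n ∈ range T, (1 - r) ^ 2 * (u.coeff n + (X ^ d * u).coeff n) ^ 2 :=
    sum_nonneg fun _ _ => mul_nonneg (sq_nonneg _) (sq_nonneg _)
  rw [← mul_sum] at h3
  have h4 : 0 ≤ 2 * (1 - r ^ 2) := by nlinarith
  have h5 := mul_nonneg h4 (sub_nonneg.mpr h1)
  linarith

lemma nsq_sub_le {s : ℝ} (hs : 0 ≤ s) (T M : ℕ) (f : ℝ[X]) :
    nsq T ((1 - C s * X ^ M) * f) ≤ (1 + s) ^ 2 * nsq T f := by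
  have h1 := sum_shift_le T M f
  simp only [nsq, coeff_one_sub_mul] at h1 ⊢
  calc ∑ n ∈ range T, (f.coeff n - s * (X ^ M * f).coeff n) ^ 2
      ≤ ∑ n ∈ range T, ((1 + s) * (f.coeff n ^ 2) + (1 + s) * s * ((X ^ M * f).coeff n) ^ 2) := by
        refine sum_le_sum fun n _ => ?_
        nlinarith [mul_nonneg hs (sq_nonneg (f.coeff n + (X ^ M * f).coeff n))]
    _ = (1 + s) * (∑ n ∈ range T, f.coeff n ^ 2)
        + (1 + s) * s * ∑ n ∈ range T, ((X ^ M * f).coeff n) ^ 2 := by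
        rw [sum_add_distrib, ← mul_sum, ← mul_sum]
    _ ≤ (1 + s) * (∑ n ∈ range T, f.coeff n ^ 2)
        + (1 + s) * s * ∑ n ∈ range T, f.coeff n ^ 2 := by
        have : 0 ≤ (1 + s) * s := by positivity
        gcongr
    _ = _ := by ring

lemma one_sub_mul_Qp (E d : ℕ) :
    (1 - C (1 - 1 / (E : ℝ)) * X ^ d) * Qp E d
      = 1 - C ((1 - 1 / (E : ℝ)) ^ (E ^ 2)) * X ^ (d * E ^ 2) := by
  have h1 : Qp E d = ∑ j ∈ range (E ^ 2), (C (1 - 1 / (E : ℝ)) * X ^ d) ^ j := by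
    refine sum_congr rfl fun j _ => ?_
    rw [mul_pow, ← C_pow, ← pow_mul]
  rw [h1, mul_neg_geom_sum, mul_pow, ← C_pow, ← pow_mul]

lemma rho_bounds {E : ℕ} (hE : 2 ≤ E) : 0 ≤ 1 - 1 / (E : ℝ) ∧ 1 - 1 / (E : ℝ) < 1 ∧
    0 < 1 / (E : ℝ) ∧ 1 / (E : ℝ) ≤ 1 / 2 := by
  have h : (2 : ℝ) ≤ E := by exact_mod_cast hE
  have h1 : 1 / (E : ℝ) ≤ 1 / 2 := one_div_le_one_div_of_le (by norm_num) h
  have h2 : 0 < 1 / (E : ℝ) := by positivity
  refine ⟨by linarith, by linarith, h2, h1⟩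

lemma rho_pow_le {E : ℕ} (hE : 2 ≤ E) : (1 - 1 / (E : ℝ)) ^ (E ^ 2) ≤ 1 / E := by
  obtain ⟨h0, h1, h2, h3⟩ := rho_bounds hE
  have hE' : (0 : ℝ) < E := by
    have : (2 : ℝ) ≤ E := by exact_mod_cast hE
    linarith
  have h4 : 1 - 1 / (E : ℝ) ≤ Real.exp (-(1 / (E : ℝ))) := by
    have := Real.add_one_le_exp (-(1 / (E : ℝ)))
    linarith
  calc (1 - 1 / (E : ℝ)) ^ (E ^ 2) ≤ (Real.exp (-(1 / (E : ℝ)))) ^ (E ^ 2) :=
        pow_le_pow_left₀ h0 h4 _
    _ = Real.exp (-(E : ℝ)) := by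
        rw [← Real.exp_nat_mul]
        congr 1
        push_cast
        field_simp
    _ = 1 / Real.exp E := by rw [Real.exp_neg, one_div]
    _ ≤ 1 / E := by
        refine one_div_le_one_div_of_le hE' ?_
        have := Real.add_one_le_exp (E : ℝ)
        linarith

/-! ### The required statements -/

theorem nsq_Ap_mul {E d : ℕ} (hE : 2 ≤ E) (_hd : 1 ≤ d) (T : ℕ) (f : ℝ[X]) :
    nsq T (Ap E d * f) ≤ Real.exp (4 / E) * nsq T f := by
  obtain ⟨h0, h1, h2, h3⟩ := rho_bounds hE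
  set η : ℝ := 1 / (E : ℝ) with hη
  set s : ℝ := (1 - η) ^ (E ^ 2) with hs
  have hs0 : 0 ≤ s := pow_nonneg h0 _
  have hs1 : s ≤ η := rho_pow_le hE
  have e1 : Ap E d * f = (1 - X ^ d) * (Qp E d * f) := by rw [Ap, mul_assoc]
  have e2 := nsq_diff_le h0 h1.le T d (Qp E d * f)
  have e3 : (1 - C (1 - η) * X ^ d) * (Qp E d * f) = (1 - C s * X ^ (d * E ^ 2)) * f := by
    rw [← mul_assoc, one_sub_mul_Qp]
  rw [e3, ← e1] at e2
  have e4 := nsq_sub_le hs0 T (d * E ^ 2) f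
  have hf := nsq_nonneg T f
  have e5 : (1 + (1 - η)) ^ 2 * nsq T (Ap E d * f) ≤ 4 * ((1 + s) ^ 2 * nsq T f) :=
    e2.trans (by linarith)
  have e6 : (1 + s) ^ 2 * nsq T f ≤ (1 + η) ^ 2 * nsq T f := by gcongr
  have e7 : (4 : ℝ) ≤ (1 + (1 - η)) ^ 2 * (1 + η) ^ 2 := by
    have : (2 : ℝ) ≤ (1 + (1 - η)) * (1 + η) := by nlinarith
    calc (4 : ℝ) = 2 ^ 2 := by norm_num
      _ ≤ ((1 + (1 - η)) * (1 + η)) ^ 2 := pow_le_pow_left₀ (by norm_num) this 2
      _ = _ := by ring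
  have e8 : nsq T (Ap E d * f) ≤ (1 + η) ^ 4 * nsq T f := by
    have hpos : 0 < (1 + (1 - η)) ^ 2 := by
      have : 0 < 1 + (1 - η) := by linarith
      positivity
    refine le_of_mul_le_mul_left ?_ hpos
    calc (1 + (1 - η)) ^ 2 * nsq T (Ap E d * f) ≤ 4 * ((1 + η) ^ 2 * nsq T f) := by linarith
      _ ≤ ((1 + (1 - η)) ^ 2 * (1 + η) ^ 2) * ((1 + η) ^ 2 * nsq T f) := by
          refine mul_le_mul_of_nonneg_right e7 ?_
          positivity
      _ = _ := by ring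
  refine e8.trans ?_
  refine mul_le_mul_of_nonneg_right ?_ hf
  have e9 : 1 + η ≤ Real.exp η := by
    have := Real.add_one_le_exp η
    linarith
  calc (1 + η) ^ 4 ≤ (Real.exp η) ^ 4 := pow_le_pow_left₀ (by linarith) e9 4
    _ = Real.exp (4 / E) := by
        rw [← Real.exp_nat_mul]
        congr 1
        rw [hη]; push_cast; ring

theorem nsq_AS_mul {E : ℕ → ℕ} (hE : ∀ d, 2 ≤ E d) {S : Finset ℕ} (hS : ∀ d ∈ S, 1 ≤ d)
    (T : ℕ) (f : ℝ[X]) :
    nsq T (AS E S * f) ≤ Real.exp (4 * ∑ d ∈ S, 1 / (E d : ℝ)) * nsq T f := by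
  classical
  induction S using Finset.induction_on with
  | empty => simp [AS]
  | insert a S ha ih =>
    have h1 : AS E (insert a S) * f = Ap (E a) a * (AS E S * f) := by
      rw [AS, prod_insert ha, mul_assoc]; rfl
    rw [h1, sum_insert ha]
    have h2 := nsq_Ap_mul (hE a) (hS a (mem_insert_self a S)) T (AS E S * f)
    have h3 := ih (fun d hd => hS d (mem_insert_of_mem hd))
    calc nsq T (Ap (E a) a * (AS E S * f)) ≤ Real.exp (4 / E a) * nsq T (AS E S * f) := h2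
      _ ≤ Real.exp (4 / E a) * (Real.exp (4 * ∑ d ∈ S, 1 / (E d : ℝ)) * nsq T f) := by gcongr
      _ = _ := by
          rw [← mul_assoc, ← Real.exp_add]
          congr 2
          ring

lemma coeff_Qp (E d n : ℕ) : (Qp E d).coeff n
    = ∑ j ∈ range (E ^ 2), if n = d * j then (1 - 1 / (E : ℝ)) ^ j else 0 := by
  rw [Qp, finsetSum_coeff]
  refine sum_congr rfl fun j _ => ?_
  rw [coeff_C_mul, coeff_X_pow]
  simp

theorem nsq_Qp_le {E d : ℕ} (hE : 2 ≤ E) (hd : 1 ≤ d) (T : ℕ) : nsq T (Qp E d) ≤ E := by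
  obtain ⟨h0, h1, h2, h3⟩ := rho_bounds hE
  have hE' : (0 : ℝ) < E := by
    have : (2 : ℝ) ≤ E := by exact_mod_cast hE
    linarith
  set ρ : ℝ := 1 - 1 / (E : ℝ) with hρ
  have h4 : ∀ n, ((Qp E d).coeff n) ^ 2
      = ∑ j ∈ range (E ^ 2), if n = d * j then (ρ ^ 2) ^ j else 0 := by
    intro n
    rw [coeff_Qp]
    by_cases h : ∃ j ∈ range (E ^ 2), n = d * j
    · obtain ⟨j, hj, hn⟩ := h
      have hu : ∀ i, n = d * i ↔ i = j := by
        intro i
        constructor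
        · intro hi
          rw [hn] at hi
          exact (Nat.eq_of_mul_eq_mul_left hd hi).symm
        · rintro rfl; exact hn
      simp only [hu, sum_ite_eq', hj, if_true]
      rw [← hρ, ← pow_mul, ← pow_mul, mul_comm]
    · push Not at h
      have e1 : ∀ f : ℕ → ℝ, ∑ j ∈ range (E ^ 2), (if n = d * j then f j else 0) = 0 := by
        intro f
        refine sum_eq_zero fun j hj => ?_
        rw [if_neg (h j hj)]
      rw [e1, e1]; norm_num
  simp only [nsq, h4]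
  rw [sum_comm]
  calc ∑ j ∈ range (E ^ 2), ∑ n ∈ range T, (if n = d * j then (ρ ^ 2) ^ j else 0)
      ≤ ∑ j ∈ range (E ^ 2), (ρ ^ 2) ^ j := by
        refine sum_le_sum fun j _ => ?_
        rw [sum_ite_eq']
        split_ifs
        · exact le_refl _
        · positivity
    _ ≤ E := by
        have h5 : ρ ^ 2 ≤ ρ := by nlinarith
        have h6 : (∑ j ∈ range (E ^ 2), (ρ ^ 2) ^ j) * (1 - ρ ^ 2) = 1 - (ρ ^ 2) ^ (E ^ 2) := by
          rw [mul_comm]; exact mul_neg_geom_sum _ _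
        have h7 : 0 ≤ ∑ j ∈ range (E ^ 2), (ρ ^ 2) ^ j :=
          sum_nonneg fun _ _ => by positivity
        have h8 : 0 ≤ (ρ ^ 2) ^ (E ^ 2) := by positivity
        have h9 : (∑ j ∈ range (E ^ 2), (ρ ^ 2) ^ j) * (1 / E) ≤ 1 := by
          calc (∑ j ∈ range (E ^ 2), (ρ ^ 2) ^ j) * (1 / E)
              ≤ (∑ j ∈ range (E ^ 2), (ρ ^ 2) ^ j) * (1 - ρ ^ 2) := by
                refine mul_le_mul_of_nonneg_left ?_ h7
                linarith
            _ ≤ 1 := by rw [h6]; linarith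
        rw [mul_one_div, div_le_one hE'] at h9
        exact h9

theorem natDegree_Qp_le (E d : ℕ) : (Qp E d).natDegree ≤ d * (E ^ 2 - 1) := by
  refine natDegree_sum_le_of_forall_le _ _ fun j hj => ?_
  rw [mem_range] at hj
  refine (natDegree_C_mul_X_pow_le _ _).trans ?_
  exact Nat.mul_le_mul_left d (by omega)

lemma natDegree_Ap_le {E : ℕ} (hE : 2 ≤ E) (d : ℕ) : (Ap E d).natDegree ≤ d * E ^ 2 := by
  have h1 : (1 - X ^ d : ℝ[X]).natDegree ≤ d := by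
    refine (natDegree_sub_le _ _).trans ?_
    simp
  have h2 := natDegree_Qp_le E d
  have h3 : 1 ≤ E ^ 2 := Nat.one_le_pow _ _ (by omega)
  calc (Ap E d).natDegree ≤ (1 - X ^ d : ℝ[X]).natDegree + (Qp E d).natDegree := natDegree_mul_le
    _ ≤ d + d * (E ^ 2 - 1) := add_le_add h1 h2
    _ = d * E ^ 2 := by
        obtain ⟨m, hm⟩ := Nat.exists_eq_add_of_le h3
        rw [hm]
        simp only [Nat.add_sub_cancel_left]
        ring

theorem natDegree_AS_le {E : ℕ → ℕ} (hE : ∀ d, 2 ≤ E d) (S : Finset ℕ) :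
    (AS E S).natDegree ≤ ∑ d ∈ S, d * (E d) ^ 2 := by
  refine (natDegree_prod_le _ _).trans ?_
  exact sum_le_sum fun d _ => natDegree_Ap_le (hE d) d

lemma X_pow_dvd_Ap_sub_one {E : ℕ} (hE : 2 ≤ E) (d : ℕ) : X ^ d ∣ Ap E d - 1 := by
  have h3 : 1 ≤ E ^ 2 := Nat.one_le_pow _ _ (by omega)
  obtain ⟨m, hm⟩ := Nat.exists_eq_add_of_le' h3
  have h1 : X ^ d ∣ Qp E d - 1 := by
    rw [Qp, hm, sum_range_succ']
    simp only [pow_zero, mul_zero, C_1, mul_one, add_sub_cancel_right]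
    refine dvd_sum fun j _ => ?_
    refine Dvd.dvd.mul_left ?_ _
    exact pow_dvd_pow _ (by nlinarith [Nat.zero_le (d * j)])
  have h2 : Ap E d - 1 = (Qp E d - 1) - X ^ d * Qp E d := by rw [Ap]; ring
  rw [h2]
  exact dvd_sub h1 (dvd_mul_right _ _)

lemma X_pow_dvd_AS_sub_one {E : ℕ → ℕ} (hE : ∀ d, 2 ≤ E d) (m : ℕ) (S : Finset ℕ)
    (hS : ∀ d ∈ S, m ≤ d) : X ^ m ∣ AS E S - 1 := by
  classical
  induction S using Finset.induction_on with
  | empty => simp [AS]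
  | insert a S ha ih =>
    have h1 : AS E (insert a S) - 1 = Ap (E a) a * (AS E S - 1) + (Ap (E a) a - 1) := by
      rw [AS, prod_insert ha]
      change Ap (E a) a * AS E S - 1 = _
      ring
    rw [h1]
    refine dvd_add (Dvd.dvd.mul_left (ih fun d hd => hS d (mem_insert_of_mem hd)) _) ?_
    exact (pow_dvd_pow X (hS a (mem_insert_self a S))).trans (X_pow_dvd_Ap_sub_one (hE a) a)

lemma X_pow_dvd_PB_sub_one {E : ℕ → ℕ} (hE : ∀ d, 2 ≤ E d) (k : ℕ) :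
    X ^ (2 ^ k) ∣ PB E k - 1 :=
  X_pow_dvd_AS_sub_one hE _ _ fun _ hd => (mem_Ico.mp hd).1

theorem coeff_PB_sub_one {E : ℕ → ℕ} (hE : ∀ d, 2 ≤ E d) (k n : ℕ) (hn : n < 2 ^ k) :
    (PB E k - 1).coeff n = 0 :=
  X_pow_dvd_iff.mp (X_pow_dvd_PB_sub_one hE k) n hn

lemma nsq_PB_mul_le {E : ℕ → ℕ} (hE : ∀ d, 2 ≤ E d) (k T : ℕ) (f : ℝ[X]) :
    nsq T (PB E k * f) ≤
      Real.exp (4 * ∑ d ∈ Ico (2 ^ k) (2 ^ (k + 1)), 1 / (E d : ℝ)) * nsq T f :=
  nsq_AS_mul hE (fun d hd => by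
    have h1 := (mem_Ico.mp hd).1
    have h2 : 1 ≤ 2 ^ k := Nat.one_le_pow _ _ (by norm_num)
    omega) T f

theorem nsq_PB_sub_one {E : ℕ → ℕ} (hE : ∀ d, 2 ≤ E d) (k T : ℕ) :
    nsq T (PB E k - 1) ≤
      Real.exp (4 * ∑ d ∈ Ico (2 ^ k) (2 ^ (k + 1)), 1 / (E d : ℝ)) - 1 := by
  rcases Nat.eq_zero_or_pos T with rfl | hT
  · simp only [nsq, range_zero, sum_empty]
    rw [sub_nonneg]
    refine Real.one_le_exp ?_
    positivity
  · have h0 : (PB E k - 1).coeff 0 = 0 := coeff_PB_sub_one hE k 0 (by positivity)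
    have h1 : ∀ n, ((PB E k).coeff n) ^ 2
        = ((PB E k - 1).coeff n) ^ 2 + ((1 : ℝ[X]).coeff n) ^ 2 := by
      intro n
      have e : (PB E k).coeff n = (PB E k - 1).coeff n + (1 : ℝ[X]).coeff n := by
        rw [coeff_sub]; ring
      rcases Nat.eq_zero_or_pos n with rfl | hn
      · rw [e, h0]; ring
      · have : (1 : ℝ[X]).coeff n = 0 := by
          rw [coeff_one, if_neg (by omega)]
        rw [e, this]; ring
    have h2 : nsq T (PB E k) = nsq T (PB E k - 1) + nsq T (1 : ℝ[X]) := by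
      simp only [nsq, h1, sum_add_distrib]
    have h3 : nsq T (1 : ℝ[X]) = 1 := by
      simp only [nsq, coeff_one]
      rw [sum_eq_single 0]
      · simp
      · intro b _ hb
        rw [if_neg hb]; norm_num
      · intro h
        exact absurd (mem_range.mpr hT) h
    have h4 := nsq_PB_mul_le hE k T 1
    rw [mul_one, h2, h3, mul_one] at h4
    linarith

theorem nsq_Qp_mul_PB_sub_one {E : ℕ → ℕ} (hE : ∀ d, 2 ≤ E d) {d : ℕ} (hd : 1 ≤ d) (k T : ℕ)
    (hdk : d * (E d) ^ 2 ≤ 2 ^ k) :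
    nsq T (Qp (E d) d * (PB E k - 1)) ≤
      (Real.exp (4 * ∑ d ∈ Ico (2 ^ k) (2 ^ (k + 1)), 1 / (E d : ℝ)) - 1) * E d := by
  have hdeg : (Qp (E d) d).natDegree < 2 ^ k := by
    have h1 := natDegree_Qp_le (E d) d
    have h3 : 1 ≤ (E d) ^ 2 := Nat.one_le_pow _ _ (by have := hE d; omega)
    have h4 : d * ((E d) ^ 2 - 1) < d * (E d) ^ 2 :=
      Nat.mul_lt_mul_of_pos_left (by omega) (by omega)
    omega
  have h1 : ∀ n, ((PB E k * Qp (E d) d).coeff n) ^ 2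
      = ((Qp (E d) d * (PB E k - 1)).coeff n) ^ 2 + ((Qp (E d) d).coeff n) ^ 2 := by
    intro n
    have e : (PB E k * Qp (E d) d).coeff n
        = (Qp (E d) d * (PB E k - 1)).coeff n + (Qp (E d) d).coeff n := by
      rw [← coeff_add]
      congr 1
      ring
    rcases lt_or_ge n (2 ^ k) with hn | hn
    · have h0 : (Qp (E d) d * (PB E k - 1)).coeff n = 0 :=
        X_pow_dvd_iff.mp ((X_pow_dvd_PB_sub_one hE k).mul_left _) n hn
      rw [e, h0]; ring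
    · have h0 : (Qp (E d) d).coeff n = 0 := coeff_eq_zero_of_natDegree_lt (by omega)
      rw [e, h0]; ring
  have h2 : nsq T (PB E k * Qp (E d) d)
      = nsq T (Qp (E d) d * (PB E k - 1)) + nsq T (Qp (E d) d) := by
    simp only [nsq, h1, sum_add_distrib]
  have h4 := nsq_PB_mul_le hE k T (Qp (E d) d)
  have h5 := nsq_Qp_le (hE d) hd T
  have h6 : 0 ≤ Real.exp (4 * ∑ d ∈ Ico (2 ^ k) (2 ^ (k + 1)), 1 / (E d : ℝ)) - 1 := by
    rw [sub_nonneg]
    refine Real.one_le_exp ?_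
    positivity
  rw [h2] at h4
  calc nsq T (Qp (E d) d * (PB E k - 1))
      ≤ (Real.exp (4 * ∑ d ∈ Ico (2 ^ k) (2 ^ (k + 1)), 1 / (E d : ℝ)) - 1)
        * nsq T (Qp (E d) d) := by
        rw [sub_mul, one_mul]
        linarith
    _ ≤ _ := mul_le_mul_of_nonneg_left h5 h6

end Pool.Agent.H.MP_02f3ba_co
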