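import Mathlib
import Pool.Agent.H.MP_02f3ba_co.Filter

/-!
# Constants and the norms of the kernels of each level
-/

namespace Pool.Agent.H.MP_02f3ba_co

open Polynomial Finset

/-- the damping times -/
def Ed (d : ℕ) : ℕ := 2 ^ 22 * 2 ^ (Nat.log 2 d) * (Nat.log 2 d + 1) ^ 4

theorem two_le_Ed (d : ℕ) : 2 ≤ Ed d := by
  unfold Ed
  have h1 : 1 ≤ 2 ^ (Nat.log 2 d) := Nat.one_le_two_pow
  have h2 : 1 ≤ (Nat.log 2 d + 1) ^ 4 := Nat.one_le_pow _ _ (by omega)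
  calc 2 ≤ 2 ^ 22 * 1 * 1 := by norm_num
    _ ≤ 2 ^ 22 * 2 ^ (Nat.log 2 d) * (Nat.log 2 d + 1) ^ 4 :=
      Nat.mul_le_mul (Nat.mul_le_mul_left _ h1) h2

theorem succ_le_two_pow (j : ℕ) : j + 1 ≤ 2 ^ j := Nat.lt_two_pow_self

theorem Ed_le (d j : ℕ) (h : Nat.log 2 d ≤ j) : Ed d ≤ 2 ^ (22 + 5 * j) := by
  unfold Ed
  have h1 : 2 ^ (Nat.log 2 d) ≤ 2 ^ j := Nat.pow_le_pow_right (by norm_num) h
  have h2 : (Nat.log 2 d + 1) ^ 4 ≤ (2 ^ j) ^ 4 :=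
    Nat.pow_le_pow_left ((by omega : Nat.log 2 d + 1 ≤ j + 1).trans (succ_le_two_pow j)) 4
  calc 2 ^ 22 * 2 ^ (Nat.log 2 d) * (Nat.log 2 d + 1) ^ 4 ≤ 2 ^ 22 * 2 ^ j * (2 ^ j) ^ 4 :=
        Nat.mul_le_mul (Nat.mul_le_mul_left _ h1) h2
    _ = 2 ^ (22 + 5 * j) := by
      rw [← pow_mul, ← pow_add, ← pow_add]
      congr 1
      ring

theorem log_of_mem {k d : ℕ} (h : d ∈ Finset.Ico (2 ^ k) (2 ^ (k + 1))) : Nat.log 2 d = k := by
  rw [Finset.mem_Ico] at h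
  exact Nat.log_eq_of_pow_le_of_lt_pow h.1 h.2

/-- the total damping of the band `k` -/
theorem sum_band (k : ℕ) :
    ∑ d ∈ Finset.Ico (2 ^ k) (2 ^ (k + 1)), 1 / (Ed d : ℝ) = 1 / (2 ^ 22 * ((k : ℝ) + 1) ^ 4) := by
  have h : ∀ d ∈ Finset.Ico (2 ^ k) (2 ^ (k + 1)), 1 / (Ed d : ℝ) =
      1 / (2 ^ 22 * 2 ^ k * ((k : ℝ) + 1) ^ 4) := by
    intro d hd
    unfold Ed
    rw [log_of_mem hd]
    push_cast
    norm_num
  rw [Finset.sum_congr rfl h, Finset.sum_const, Nat.card_Ico, nsmul_eq_mul]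
  have : (2 : ℕ) ^ (k + 1) - 2 ^ k = 2 ^ k := by
    rw [pow_succ]; omega
  rw [this]
  push_cast
  field_simp

theorem sum_inv_sq (n : ℕ) : ∑ k ∈ Finset.range n, 1 / ((k : ℝ) + 1) ^ 4 ≤ 2 := by
  have key : ∀ n : ℕ, ∑ k ∈ Finset.range (n + 1), 1 / ((k : ℝ) + 1) ^ 4 ≤ 2 - 1 / ((n : ℝ) + 1) := by
    intro n
    induction n with
    | zero => norm_num
    | succ n ih =>
      rw [Finset.sum_range_succ]
      have h1 : 1 / (((n + 1 : ℕ) : ℝ) + 1) ^ 4 ≤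
          1 / ((n : ℝ) + 1) - 1 / (((n + 1 : ℕ) : ℝ) + 1) := by
        push_cast
        have hn : (0 : ℝ) ≤ n := Nat.cast_nonneg n
        have e : 1 / ((n : ℝ) + 1) - 1 / ((n : ℝ) + 1 + 1) =
            1 / (((n : ℝ) + 1) * ((n : ℝ) + 1 + 1)) := by
          field_simp
          ring
        rw [e]
        apply one_div_le_one_div_of_le (by positivity)
        have h2 : (1 : ℝ) ≤ (n : ℝ) + 1 + 1 := by linarith
        have h3 : ((n : ℝ) + 1 + 1) ^ 2 ≤ ((n : ℝ) + 1 + 1) ^ 4 :=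
          pow_le_pow_right₀ h2 (by norm_num)
        nlinarith
      linarith
  rcases n with _ | n
  · simp
  · have h1 := key n
    have h2 : (0 : ℝ) ≤ 1 / ((n : ℝ) + 1) := by positivity
    linarith

/-- the total damping below `2^k` is tiny -/
theorem sum_below (k : ℕ) : ∑ d ∈ Finset.Ico 1 (2 ^ k), 1 / (Ed d : ℝ) ≤ 1 / 2 ^ 21 := by
  have h : ∀ k : ℕ, ∑ d ∈ Finset.Ico 1 (2 ^ k), 1 / (Ed d : ℝ) =
      1 / 2 ^ 22 * ∑ j ∈ Finset.range k, 1 / ((j : ℝ) + 1) ^ 4 := by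
    intro k
    induction k with
    | zero => simp
    | succ k ih =>
      rw [← Finset.sum_Ico_consecutive _ (Nat.one_le_two_pow (n := k))
        (Nat.pow_le_pow_right (by norm_num) (Nat.le_succ k)), ih, sum_band,
        Finset.sum_range_succ, mul_add]
      congr 1
      field_simp
  rw [h]
  have := sum_inv_sq k
  calc 1 / 2 ^ 22 * ∑ j ∈ Finset.range k, 1 / ((j : ℝ) + 1) ^ 4 ≤ 1 / 2 ^ 22 * 2 :=
        mul_le_mul_of_nonneg_left this (by positivity)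
    _ = 1 / 2 ^ 21 := by norm_num

theorem exp_le_two {x : ℝ} (h : x ≤ 1 / 2 ^ 21) : Real.exp (4 * x) ≤ 2 := by
  have h1 : Real.exp (4 * x) ≤ Real.exp (1 / 2) := by
    apply Real.exp_le_exp.mpr
    norm_num at h ⊢
    linarith
  have h2 : Real.exp (1 / 2) ^ 2 = Real.exp 1 := by
    rw [← Real.exp_nat_mul]
    norm_num
  have h3 := Real.exp_one_lt_d9
  nlinarith [Real.exp_pos (1 / 2)]

theorem exp_sub_one_le {x : ℝ} (h0 : 0 ≤ x) (h : x ≤ 1) : Real.exp x - 1 ≤ 2 * x := by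
  have h1 := Real.abs_exp_sub_one_le (x := x) (by rwa [abs_of_nonneg h0])
  rw [abs_of_nonneg h0] at h1
  exact (le_abs_self _).trans h1

theorem band_factor (k : ℕ) :
    Real.exp (4 * ∑ d ∈ Finset.Ico (2 ^ k) (2 ^ (k + 1)), 1 / (Ed d : ℝ)) - 1 ≤
      8 / (2 ^ 22 * ((k : ℝ) + 1) ^ 4) := by
  rw [sum_band]
  have h1 : (1 : ℝ) ≤ ((k : ℝ) + 1) ^ 4 := one_le_pow₀ (by linarith [Nat.cast_nonneg (α := ℝ) k])
  have h2 : 4 * (1 / (2 ^ 22 * ((k : ℝ) + 1) ^ 4)) ≤ 1 := by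
    rw [mul_one_div, div_le_one (by positivity)]
    nlinarith
  refine (exp_sub_one_le (by positivity) h2).trans (le_of_eq ?_)
  ring

/-- window length for the kernels of band `k` -/
def Hw (k : ℕ) : ℕ := 2 ^ (12 * k + 47)

theorem sum_deg_lt (k : ℕ) : ∑ d ∈ Finset.Ico 1 (2 ^ (k + 1)), d * (Ed d) ^ 2 < Hw k := by
  have h1 : ∀ d ∈ Finset.Ico 1 (2 ^ (k + 1)), d * (Ed d) ^ 2 ≤
      2 ^ (k + 1) * (2 ^ (22 + 5 * k)) ^ 2 := by
    intro d hd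
    rw [Finset.mem_Ico] at hd
    have hlog : Nat.log 2 d ≤ k := by
      have := Nat.log_lt_of_lt_pow (by omega : d ≠ 0) hd.2
      omega
    exact Nat.mul_le_mul hd.2.le (Nat.pow_le_pow_left (Ed_le d k hlog) 2)
  have h2 := Finset.sum_le_sum h1
  rw [Finset.sum_const, Nat.card_Ico, smul_eq_mul] at h2
  have h3 : (2 ^ (k + 1) - 1) * (2 ^ (k + 1) * (2 ^ (22 + 5 * k)) ^ 2) ≤
      2 ^ (k + 1) * (2 ^ (k + 1) * (2 ^ (22 + 5 * k)) ^ 2) :=
    Nat.mul_le_mul_right _ (Nat.sub_le _ _)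
  have h4 : 2 ^ (k + 1) * (2 ^ (k + 1) * (2 ^ (22 + 5 * k)) ^ 2) = 2 ^ (12 * k + 46) := by
    rw [← pow_mul, ← pow_add, ← pow_add]
    congr 1
    ring
  have h5 : 2 ^ (12 * k + 46) < Hw k := by
    unfold Hw
    exact Nat.pow_lt_pow_right (by norm_num) (by omega)
  omega

/-- total filter of the bands `0, ..., k - 1` -/
noncomputable def AA (k : ℕ) : ℝ[X] := AS Ed (Finset.Ico 1 (2 ^ k))

theorem AA_zero : AA 0 = 1 := by
  simp [AA, AS]

theorem AA_succ (k : ℕ) : AA (k + 1) = AA k * PB Ed k := by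
  unfold AA PB AS
  rw [Finset.prod_Ico_consecutive _ (Nat.one_le_two_pow (n := k))
    (Nat.pow_le_pow_right (by norm_num) (Nat.le_succ k))]

/-- the increment of the total filter in band `k` -/
noncomputable def TK (k : ℕ) : ℝ[X] := AA k * (PB Ed k - 1)

theorem sum_TK (K : ℕ) : ∑ k ∈ Finset.range K, TK k = AA K - 1 := by
  induction K with
  | zero => simp [AA_zero]
  | succ K ih =>
    rw [Finset.sum_range_succ, ih, AA_succ, TK]
    ring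

/-- integrated filter for the difference `d`, bands `0, ..., k - 1` -/
noncomputable def FF (d k : ℕ) : ℝ[X] := AS Ed ((Finset.Ico 1 (2 ^ k)).erase d) * Qp (Ed d) d

theorem FF_mul {d k : ℕ} (hd : 1 ≤ d) (hdk : d < 2 ^ k) : (1 - X ^ d) * FF d k = AA k := by
  unfold FF AA AS
  rw [← Finset.mul_prod_erase (Finset.Ico 1 (2 ^ k)) (fun d => Ap (Ed d) d)
    (Finset.mem_Ico.mpr ⟨hd, hdk⟩), Ap]
  ring

/-- increment of the integrated filter -/
noncomputable def UK (d k : ℕ) : ℝ[X] :=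
  AS Ed ((Finset.Ico 1 (2 ^ k)).erase d) * (Qp (Ed d) d * (PB Ed k - 1))

theorem FF_succ {d k : ℕ} (hdk : d < 2 ^ k) : FF d (k + 1) = FF d k + UK d k := by
  unfold FF UK PB AS
  have h1 : (Finset.Ico 1 (2 ^ (k + 1))).erase d =
      (Finset.Ico 1 (2 ^ k)).erase d ∪ Finset.Ico (2 ^ k) (2 ^ (k + 1)) := by
    have h2 : (2 : ℕ) ^ k ≤ 2 ^ (k + 1) := Nat.pow_le_pow_right (by norm_num) (Nat.le_succ k)
    have h3 : (1 : ℕ) ≤ 2 ^ k := Nat.one_le_two_pow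
    ext m
    simp only [Finset.mem_erase, Finset.mem_Ico, Finset.mem_union]
    omega
  have h4 : Disjoint ((Finset.Ico 1 (2 ^ k)).erase d) (Finset.Ico (2 ^ k) (2 ^ (k + 1))) := by
    rw [Finset.disjoint_left]
    intro m
    simp only [Finset.mem_erase, Finset.mem_Ico]
    omega
  rw [h1, Finset.prod_union h4]
  ring

theorem FF_eq {d k₀ : ℕ} (hdk : d < 2 ^ k₀) (K : ℕ) (hK : k₀ ≤ K) :
    FF d K = FF d k₀ + ∑ k ∈ Finset.Ico k₀ K, UK d k := by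
  induction K, hK using Nat.le_induction with
  | base => simp
  | succ K hK ih =>
    rw [FF_succ (hdk.trans_le (Nat.pow_le_pow_right (by norm_num) hK)), ih,
      Finset.sum_Ico_succ_top hK]
    ring

theorem sum_erase_le (d k : ℕ) : ∑ d ∈ (Finset.Ico 1 (2 ^ k)).erase d, 1 / (Ed d : ℝ) ≤ 1 / 2 ^ 21 :=
  (Finset.sum_le_sum_of_subset_of_nonneg (Finset.erase_subset _ _)
    (fun _ _ _ => by positivity)).trans (sum_below k)

theorem nsq_TK (k T : ℕ) : nsq T (TK k) ≤ 16 / (2 ^ 22 * ((k : ℝ) + 1) ^ 4) := by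
  unfold TK AA
  have h1 := nsq_AS_mul two_le_Ed (S := Finset.Ico 1 (2 ^ k))
    (fun d hd => (Finset.mem_Ico.mp hd).1) T (PB Ed k - 1)
  have h2 := (nsq_PB_sub_one two_le_Ed k T).trans (band_factor k)
  have h3 := exp_le_two (sum_below k)
  calc nsq T (AS Ed (Finset.Ico 1 (2 ^ k)) * (PB Ed k - 1)) ≤ _ := h1
    _ ≤ 2 * (8 / (2 ^ 22 * ((k : ℝ) + 1) ^ 4)) :=
      mul_le_mul h3 h2 (nsq_nonneg _ _) (by norm_num)
    _ = 16 / (2 ^ 22 * ((k : ℝ) + 1) ^ 4) := by ring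

theorem nsq_FF {d : ℕ} (hd : 1 ≤ d) (k T : ℕ) : nsq T (FF d k) ≤ 2 * Ed d := by
  unfold FF
  have h1 := nsq_AS_mul two_le_Ed (S := (Finset.Ico 1 (2 ^ k)).erase d)
    (fun d hd => (Finset.mem_Ico.mp (Finset.mem_of_mem_erase hd)).1) T (Qp (Ed d) d)
  have h2 := nsq_Qp_le (two_le_Ed d) hd T
  have h3 := exp_le_two (sum_erase_le d k)
  exact h1.trans (mul_le_mul h3 h2 (nsq_nonneg _ _) (by norm_num))

theorem nsq_UK {d : ℕ} (hd : 1 ≤ d) (k T : ℕ) (hdk : d * (Ed d) ^ 2 ≤ 2 ^ k) :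
    nsq T (UK d k) ≤ 16 / (2 ^ 22 * ((k : ℝ) + 1) ^ 4) * Ed d := by
  unfold UK
  have h1 := nsq_AS_mul two_le_Ed (S := (Finset.Ico 1 (2 ^ k)).erase d)
    (fun d hd => (Finset.mem_Ico.mp (Finset.mem_of_mem_erase hd)).1) T
    (Qp (Ed d) d * (PB Ed k - 1))
  have h2 := (nsq_Qp_mul_PB_sub_one two_le_Ed hd k T hdk).trans
    (mul_le_mul_of_nonneg_right (band_factor k) (Nat.cast_nonneg _))
  have h3 := exp_le_two (sum_erase_le d k)
  calc _ ≤ _ := h1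
    _ ≤ 2 * (8 / (2 ^ 22 * ((k : ℝ) + 1) ^ 4) * Ed d) :=
      mul_le_mul h3 h2 (nsq_nonneg _ _) (by norm_num)
    _ = 16 / (2 ^ 22 * ((k : ℝ) + 1) ^ 4) * Ed d := by ring

theorem natDegree_AA_lt (k : ℕ) : (AA (k + 1)).natDegree < Hw k :=
  (natDegree_AS_le two_le_Ed _).trans_lt (sum_deg_lt k)

theorem natDegree_TK_lt (k : ℕ) : (TK k).natDegree < Hw k := by
  have h : TK k = AA (k + 1) - AA k := by
    rw [AA_succ, TK]
    ring
  rw [h]
  refine (natDegree_sub_le _ _).trans_lt (max_lt (natDegree_AA_lt k) ?_)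
  refine (natDegree_AS_le two_le_Ed _).trans_lt ?_
  refine lt_of_le_of_lt ?_ (sum_deg_lt k)
  exact Finset.sum_le_sum_of_subset (Finset.Ico_subset_Ico_right
    (Nat.pow_le_pow_right (by norm_num) (Nat.le_succ k)))

theorem natDegree_FF_lt {d k : ℕ} (hd : 1 ≤ d) (hdk : d < 2 ^ (k + 1)) :
    (FF d (k + 1)).natDegree < Hw k := by
  unfold FF
  refine natDegree_mul_le.trans_lt ?_
  have h1 := natDegree_AS_le two_le_Ed ((Finset.Ico 1 (2 ^ (k + 1))).erase d)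
  have h2 := natDegree_Qp_le (Ed d) d
  have h3 := Finset.add_sum_erase (Finset.Ico 1 (2 ^ (k + 1))) (fun d => d * (Ed d) ^ 2)
    (Finset.mem_Ico.mpr ⟨hd, hdk⟩)
  have h4 := sum_deg_lt k
  have h5 : d * ((Ed d) ^ 2 - 1) ≤ d * (Ed d) ^ 2 := Nat.mul_le_mul_left _ (Nat.sub_le _ _)
  omega

theorem natDegree_UK_lt {d k : ℕ} (hd : 1 ≤ d) (hdk : d < 2 ^ k) :
    (UK d k).natDegree < Hw k := by
  have h : UK d k = FF d (k + 1) - FF d k := by
    rw [FF_succ hdk]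
    ring
  rw [h]
  refine (natDegree_sub_le _ _).trans_lt (max_lt (natDegree_FF_lt hd
    (hdk.trans_le (Nat.pow_le_pow_right (by norm_num) (Nat.le_succ k)))) ?_)
  rcases k with _ | k
  · simp at hdk
    omega
  · refine (natDegree_FF_lt hd hdk).trans_le ?_
    unfold Hw
    exact Nat.pow_le_pow_right (by norm_num) (by omega)

end Pool.Agent.H.MP_02f3ba_co
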