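import Mathlib

/-!
# Convolution of a sequence with a polynomial kernel; the predictor
-/

namespace Pool.Agent.H.MP_02f3ba_co

open Polynomial Finset

/-- causal convolution -/
noncomputable def conv (G : ℝ[X]) (e : ℕ → ℝ) (t : ℕ) : ℝ :=
  ∑ m ∈ Finset.range (t + 1), G.coeff (t - m) * e m

theorem conv_eq (G : ℝ[X]) (e : ℕ → ℝ) (t : ℕ) :
    conv G e t = PowerSeries.coeff t ((G : PowerSeries ℝ) * PowerSeries.mk e) := by
  rw [mul_comm, PowerSeries.coeff_mul, Finset.Nat.sum_antidiagonal_eq_sum_range_succ_mk]
  unfold conv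
  apply Finset.sum_congr rfl
  intro m _
  simp [mul_comm]

theorem conv_add (G G' : ℝ[X]) (e : ℕ → ℝ) (t : ℕ) : conv (G + G') e t = conv G e t + conv G' e t := by
  unfold conv
  rw [← Finset.sum_add_distrib]
  apply Finset.sum_congr rfl
  intro m _
  rw [coeff_add]
  ring

theorem conv_zero (e : ℕ → ℝ) (t : ℕ) : conv 0 e t = 0 := by
  simp [conv]

theorem conv_sum {ι : Type*} (s : Finset ι) (G : ι → ℝ[X]) (e : ℕ → ℝ) (t : ℕ) :
    conv (∑ i ∈ s, G i) e t = ∑ i ∈ s, conv (G i) e t := by
  classical
  induction s using Finset.induction_on with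
  | empty => simp [conv_zero]
  | insert a s ha ih => rw [Finset.sum_insert ha, Finset.sum_insert ha, conv_add, ih]

theorem conv_one (e : ℕ → ℝ) (t : ℕ) : conv 1 e t = e t := by
  rw [conv_eq]
  simp

theorem conv_shift (F : ℝ[X]) (d : ℕ) (e : ℕ → ℝ) (t : ℕ) :
    conv ((1 - X ^ d) * F) e t = conv F e t - if d ≤ t then conv F e (t - d) else 0 := by
  rw [conv_eq, conv_eq]
  have h : (((1 - X ^ d) * F : ℝ[X]) : PowerSeries ℝ) * PowerSeries.mk e =
      (F : PowerSeries ℝ) * PowerSeries.mk e -
      (PowerSeries.X : PowerSeries ℝ) ^ d * ((F : PowerSeries ℝ) * PowerSeries.mk e) := by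
    push_cast
    ring
  rw [h, map_sub, PowerSeries.coeff_X_pow_mul']
  split_ifs with h1
  · rw [conv_eq]
  · rfl

/-- A kernel of degree less than the window length sees at most two windows. -/
theorem conv_bound (G : ℝ[X]) (e : ℕ → ℝ) (H R t : ℕ) (hG : G.natDegree < H)
    (ht : t < R * H) {B : ℝ} (hB0 : 0 ≤ B)
    (hB : ∀ i < R, ∀ t' < 2 * H, |∑ m ∈ Finset.Ico (i * H) ((i + 1) * H),
      if m ≤ i * H + t' then G.coeff (i * H + t' - m) * e m else 0| ≤ B) :
    |conv G e t| ≤ 2 * B := by
  have hH : 0 < H := by omega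
  set i := t / H with hi
  have hi1 : i * H ≤ t := Nat.div_mul_le_self _ _
  have hi2 : t < (i + 1) * H := by
    have := Nat.lt_div_mul_add (a := t) hH
    rw [← hi] at this
    linarith
  have hiR : i < R := by
    rw [hi, Nat.div_lt_iff_lt_mul hH]
    exact ht
  have hcur : ∑ m ∈ Finset.Ico (i * H) ((i + 1) * H),
      (if m ≤ i * H + (t - i * H) then G.coeff (i * H + (t - i * H) - m) * e m else 0) =
      ∑ m ∈ Finset.Ico (i * H) (t + 1), G.coeff (t - m) * e m := by
    rw [Nat.add_sub_cancel' hi1, ← Finset.sum_filter]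
    apply Finset.sum_congr
    · ext m
      simp only [Finset.mem_filter, Finset.mem_Ico]
      omega
    · intro m _
      rfl
  have h1 := hB i hiR (t - i * H) (by
    have : (i + 1) * H = i * H + H := by ring
    omega)
  rw [hcur] at h1
  unfold conv
  rw [Finset.range_eq_Ico]
  rcases Nat.eq_zero_or_pos i with h0 | h0
  · rw [h0, zero_mul] at h1
    linarith
  · obtain ⟨j, hj⟩ : ∃ j, i = j + 1 := ⟨i - 1, by omega⟩
    have e1 : i * H = j * H + H := by rw [hj]; ring
    have e2 : (i + 1) * H = j * H + H + H := by rw [hj]; ring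
    rw [← Finset.sum_Ico_consecutive _ (Nat.zero_le (i * H)) (by omega),
      ← Finset.sum_Ico_consecutive _ (Nat.zero_le (j * H)) (by omega)]
    have hz : ∑ m ∈ Finset.Ico 0 (j * H), G.coeff (t - m) * e m = 0 := by
      apply Finset.sum_eq_zero
      intro m hm
      rw [Finset.mem_Ico] at hm
      rw [coeff_eq_zero_of_natDegree_lt (by omega), zero_mul]
    have h2 := hB j (by omega) (t - j * H) (by omega)
    have hprev : ∑ m ∈ Finset.Ico (j * H) ((j + 1) * H),
        (if m ≤ j * H + (t - j * H) then G.coeff (j * H + (t - j * H) - m) * e m else 0) =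
        ∑ m ∈ Finset.Ico (j * H) (i * H), G.coeff (t - m) * e m := by
      rw [Nat.add_sub_cancel' (by omega), ← hj]
      apply Finset.sum_congr rfl
      intro m hm
      rw [Finset.mem_Ico] at hm
      rw [if_pos (by omega)]
    rw [hprev] at h2
    rw [hz, zero_add]
    refine (abs_add_le _ _).trans ?_
    linarith

/-- Progression sums are differences of two values of the integrated process. -/
theorem ap_bound (y S : ℕ → ℝ) (d R : ℕ) {B : ℝ}
    (hS : ∀ t < R, y t = S t - if d ≤ t then S (t - d) else 0) (hB : ∀ t < R, |S t| ≤ B)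
    (hB0 : 0 ≤ B) (a N : ℕ) (hN : a + N * d < R) :
    |∑ i ∈ Finset.range N, y (a + i * d)| ≤ 2 * B := by
  rcases N with _ | N
  · simp
    exact hB0
  · have key : ∀ n : ℕ, n ≤ N → ∑ i ∈ Finset.range (n + 1), y (a + i * d) =
        S (a + n * d) - if d ≤ a then S (a - d) else 0 := by
      intro n
      induction n with
      | zero =>
        intro _
        simp only [zero_add, Finset.range_one, Finset.sum_singleton, zero_mul, add_zero]
        exact hS a (by nlinarith)
      | succ n ih =>
        intro hn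
        rw [Finset.sum_range_succ, ih (by omega)]
        have h1 : a + (n + 1) * d < R := by
          refine lt_of_le_of_lt ?_ hN
          have : (n + 1) * d ≤ (N + 1) * d := Nat.mul_le_mul_right _ (by omega)
          omega
        have h2 : (n + 1) * d = n * d + d := by ring
        have h3 := hS _ h1
        rw [if_pos (by omega), show a + (n + 1) * d - d = a + n * d by omega] at h3
        rw [h3]
        ring
    rw [key N le_rfl]
    have h1 : a + N * d < R := by
      refine lt_of_le_of_lt ?_ hN
      have : N * d ≤ (N + 1) * d := Nat.mul_le_mul_right _ (by omega)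
      omega
    have h2 := hB _ h1
    split_ifs with h3
    · have h4 := hB (a - d) (by omega)
      refine (abs_sub _ _).trans ?_
      linarith
    · rw [sub_zero]
      linarith

/-- clipping to `[-1/2, 1/2]` -/
noncomputable def clip (u : ℝ) : ℝ := max (-1 / 2) (min u (1 / 2))

theorem abs_clip_le (u : ℝ) : |clip u| ≤ 1 / 2 := by
  unfold clip
  rw [abs_le]
  constructor
  · have := le_max_left (-1 / 2 : ℝ) (min u (1 / 2))
    linarith
  · apply max_le
    · norm_num
    · exact min_le_right _ _

theorem clip_eq {u : ℝ} (h : |u| ≤ 1 / 2) : clip u = u := by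
  have h' := abs_le.mp h
  unfold clip
  rw [min_eq_left h'.2, max_eq_right (by linarith [h'.1])]

/-- the predictor of the process driven by the kernel `T` -/
noncomputable def pred (T : ℝ[X]) (y : ℕ → ℝ) : ℕ → ℝ
  | n => clip (∑ m : Fin n, T.coeff (n - m) * (y m - pred T y m))
termination_by n => n
decreasing_by exact m.2

theorem pred_eq (T : ℝ[X]) (y : ℕ → ℝ) (n : ℕ) :
    pred T y n = clip (∑ m ∈ Finset.range n, T.coeff (n - m) * (y m - pred T y m)) := by
  rw [pred, Finset.sum_range]

theorem abs_pred_le (T : ℝ[X]) (y : ℕ → ℝ) (n : ℕ) : |pred T y n| ≤ 1 / 2 := by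
  rw [pred_eq]
  exact abs_clip_le _

theorem pred_causal (T : ℝ[X]) (y y' : ℕ → ℝ) (n : ℕ) (h : ∀ m < n, y m = y' m) :
    pred T y n = pred T y' n := by
  induction n using Nat.strong_induction_on with
  | _ n ih =>
    rw [pred_eq, pred_eq]
    congr 1
    apply Finset.sum_congr rfl
    intro m hm
    rw [Finset.mem_range] at hm
    rw [h m hm, ih m hm (fun j hj => h j (hj.trans hm))]

end Pool.Agent.H.MP_02f3ba_co
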