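import Mathlib

/-!
# Reweighting a finite measure (separation theorem) and moment bounds
-/

namespace Pool.Agent.H.MP_02f3ba_co

open Finset

/-- Reweighting lemma: a vector dominated in every direction is hit by a bounded reweighting. -/
theorem exists_reweight {Ω : Type*} {ι : Type*} [Fintype ι] (V : Ω → ι → ℝ) (μ : Ω → ℝ)
    (G : Finset Ω) {δ : ℝ} (hδ : 0 ≤ δ) (v : ι → ℝ)
    (H : ∀ c : ι → ℝ, ∑ i, c i * v i ≤ δ * ∑ ω ∈ G, μ ω * |∑ i, c i * V ω i|) :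
    ∃ φ : Ω → ℝ, (∀ ω, |φ ω| ≤ δ) ∧ ∀ i, ∑ ω ∈ G, μ ω * φ ω * V ω i = v i := by
  classical
  set S : Set (ι → ℝ) := (fun φ : Ω → ℝ => fun i => ∑ ω ∈ G, μ ω * φ ω * V ω i) ''
    (Set.Icc (fun _ => -δ) (fun _ => δ)) with hS
  have hcont : Continuous (fun φ : Ω → ℝ => fun i => ∑ ω ∈ G, μ ω * φ ω * V ω i) := by
    fun_prop
  have hcomp : IsCompact S := (isCompact_Icc).image hcont
  have hconv : Convex ℝ S := by
    have hl : IsLinearMap ℝ (fun φ : Ω → ℝ => fun i => ∑ ω ∈ G, μ ω * φ ω * V ω i) := by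
      constructor
      · intro a b
        ext i
        simp only [Pi.add_apply]
        rw [← Finset.sum_add_distrib]
        apply Finset.sum_congr rfl
        intro ω _
        ring
      · intro r a
        ext i
        simp only [Pi.smul_apply, smul_eq_mul]
        rw [Finset.mul_sum]
        apply Finset.sum_congr rfl
        intro ω _
        ring
    exact (convex_Icc _ _).is_linear_image hl
  by_contra hcon
  have hv : v ∉ S := by
    rintro ⟨φ, hφ, hφv⟩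
    apply hcon
    refine ⟨φ, ?_, ?_⟩
    · intro ω
      rw [abs_le]
      exact ⟨hφ.1 ω, hφ.2 ω⟩
    · intro i
      exact congrFun hφv i
  obtain ⟨f, u, hfu, hfv⟩ := geometric_hahn_banach_closed_point hconv hcomp.isClosed hv
  set c : ι → ℝ := fun i => f (Pi.single i 1) with hc
  have hf : ∀ w : ι → ℝ, f w = ∑ i, c i * w i := by
    intro w
    have : w = ∑ i, w i • (Pi.single i (1 : ℝ) : ι → ℝ) := by
      ext j
      simp [Finset.sum_apply, Pi.single_apply]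
    conv_lhs => rw [this]
    rw [map_sum]
    apply Finset.sum_congr rfl
    intro i _
    rw [map_smul, smul_eq_mul, mul_comm]
  set φ : Ω → ℝ := fun ω => if 0 ≤ ∑ i, c i * V ω i then δ else -δ with hφ
  have hφmem : (fun i => ∑ ω ∈ G, μ ω * φ ω * V ω i) ∈ S := by
    refine ⟨φ, ⟨?_, ?_⟩, rfl⟩
    · intro ω
      simp only [hφ]
      split_ifs <;> linarith
    · intro ω
      simp only [hφ]
      split_ifs <;> linarith
  have h1 := hfu _ hφmem
  rw [hf] at h1 hfv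
  have h2 : ∑ i, c i * ∑ ω ∈ G, μ ω * φ ω * V ω i = δ * ∑ ω ∈ G, μ ω * |∑ i, c i * V ω i| := by
    rw [Finset.mul_sum]
    simp_rw [Finset.mul_sum]
    rw [Finset.sum_comm]
    apply Finset.sum_congr rfl
    intro ω _
    have : ∑ i, c i * (μ ω * φ ω * V ω i) = μ ω * (φ ω * ∑ i, c i * V ω i) := by
      rw [Finset.mul_sum, Finset.mul_sum]
      apply Finset.sum_congr rfl
      intro i _
      ring
    rw [this]
    simp only [hφ]
    split_ifs with h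
    · rw [abs_of_nonneg h]; ring
    · rw [abs_of_neg (not_le.mp h)]; ring
  have h3 := H c
  linarith

theorem abs_ge_aux (x : ℝ) {σ : ℝ} (hσ : 0 < σ) : x ^ 2 / σ - x ^ 4 / (6 * σ ^ 3) ≤ |x| := by
  have h : x ^ 2 / σ - x ^ 4 / (6 * σ ^ 3) = σ * ((|x| / σ) ^ 2 - (|x| / σ) ^ 4 / 6) := by
    have e1 : |x| ^ 2 = x ^ 2 := sq_abs x
    have e2 : |x| ^ 4 = x ^ 4 := by
      rw [show (4 : ℕ) = 2 * 2 from rfl, pow_mul, pow_mul, sq_abs]
    rw [div_pow, div_pow, e1, e2]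
    field_simp
  rw [h]
  have h2 : |x| = σ * (|x| / σ) := by field_simp
  conv_rhs => rw [h2]
  apply mul_le_mul_of_nonneg_left _ hσ.le
  set u := |x| / σ with hu
  have hu0 : 0 ≤ u := by positivity
  nlinarith [mul_nonneg hu0 (sq_nonneg (u ^ 2 - 2)), mul_nonneg hu0 (sq_nonneg (u - 1)),
    mul_nonneg hu0 (sq_nonneg (u - 3 / 2)), mul_nonneg hu0 hu0,
    mul_nonneg (mul_nonneg hu0 hu0) hu0, mul_nonneg hu0 (sq_nonneg (u ^ 2 - 2 * u)),
    mul_nonneg hu0 (mul_nonneg (show (0:ℝ) ≤ u + 3 by linarith) (sq_nonneg (u - 3/2)))]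


variable {Ω : Type*} [Fintype Ω]

/-- `μ` is a probability weight for which the innovations `e` on the window `W` are centred,
subgaussian in every direction, and nondegenerate in every direction. -/
structure IsGood (μ : Ω → ℝ) (e : Ω → ℕ → ℝ) (W : Finset ℕ) (κ α : ℝ) : Prop where
  nonneg : ∀ ω, 0 ≤ μ ω
  sum_one : ∑ ω, μ ω = 1
  mean : ∀ i ∈ W, ∑ ω, μ ω * e ω i = 0
  sg : ∀ c : ℕ → ℝ, ∑ ω, μ ω * Real.exp (∑ i ∈ W, c i * e ω i) ≤ Real.exp (κ * ∑ i ∈ W, c i ^ 2)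
  var : ∀ c : ℕ → ℝ, α * ∑ i ∈ W, c i ^ 2 ≤ ∑ ω, μ ω * (∑ i ∈ W, c i * e ω i) ^ 2

theorem cosh_lower (x : ℝ) : 1 + x ^ 2 / 2 + x ^ 4 / 24 ≤ Real.cosh x := by
  have h := Real.hasSum_cosh x
  have h2 := sum_le_hasSum (Finset.range 3) (fun n _ => by
    rw [pow_mul]
    positivity) h
  simp [Finset.sum_range_succ, Nat.factorial] at h2
  linarith

theorem cosh_ge_two (x : ℝ) : x ^ 2 ≤ 2 * (Real.cosh x - 1) := by
  have h := cosh_lower x
  have : 0 ≤ x ^ 4 := by positivity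
  linarith

theorem cosh_ge_four (x : ℝ) : x ^ 4 ≤ 24 * (Real.cosh x - 1) := by
  have h := cosh_lower x
  have : 0 ≤ x ^ 2 := by positivity
  linarith

namespace IsGood

variable {μ : Ω → ℝ} {e : Ω → ℕ → ℝ} {W : Finset ℕ} {κ α : ℝ}

theorem mean_lin (h : IsGood μ e W κ α) (c : ℕ → ℝ) :
    ∑ ω, μ ω * (∑ i ∈ W, c i * e ω i) = 0 := by
  simp_rw [Finset.mul_sum]
  rw [Finset.sum_comm]
  apply Finset.sum_eq_zero
  intro i hi
  have := h.mean i hi
  calc ∑ ω, μ ω * (c i * e ω i) = c i * ∑ ω, μ ω * e ω i := by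
        rw [Finset.mul_sum]
        apply Finset.sum_congr rfl
        intro ω _
        ring
    _ = 0 := by rw [this, mul_zero]

theorem sg_scale (h : IsGood μ e W κ α) (hκ : κ ≤ 2) (c : ℕ → ℝ) (s : ℝ) :
    ∑ ω, μ ω * Real.cosh (s * ∑ i ∈ W, c i * e ω i) ≤
      Real.exp (2 * s ^ 2 * ∑ i ∈ W, c i ^ 2) := by
  have h1 := h.sg (fun i => s * c i)
  have h2 := h.sg (fun i => -s * c i)
  have e1 : ∀ ω, ∑ i ∈ W, s * c i * e ω i = s * ∑ i ∈ W, c i * e ω i := by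
    intro ω
    rw [Finset.mul_sum]
    exact Finset.sum_congr rfl fun i _ => by ring
  have e2 : ∀ ω, ∑ i ∈ W, -s * c i * e ω i = -(s * ∑ i ∈ W, c i * e ω i) := by
    intro ω
    rw [Finset.mul_sum, ← Finset.sum_neg_distrib]
    exact Finset.sum_congr rfl fun i _ => by ring
  have e3 : ∑ i ∈ W, (s * c i) ^ 2 = s ^ 2 * ∑ i ∈ W, c i ^ 2 := by
    rw [Finset.mul_sum]
    exact Finset.sum_congr rfl fun i _ => by ring
  have e4 : ∑ i ∈ W, (-s * c i) ^ 2 = s ^ 2 * ∑ i ∈ W, c i ^ 2 := by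
    rw [Finset.mul_sum]
    exact Finset.sum_congr rfl fun i _ => by ring
  simp_rw [e1, e3] at h1
  simp_rw [e2, e4] at h2
  have hq : 0 ≤ s ^ 2 * ∑ i ∈ W, c i ^ 2 :=
    mul_nonneg (sq_nonneg _) (Finset.sum_nonneg fun i _ => sq_nonneg _)
  have h3 : Real.exp (κ * (s ^ 2 * ∑ i ∈ W, c i ^ 2)) ≤
      Real.exp (2 * s ^ 2 * ∑ i ∈ W, c i ^ 2) := by
    apply Real.exp_le_exp.mpr
    nlinarith
  have h4 : ∑ ω, μ ω * Real.cosh (s * ∑ i ∈ W, c i * e ω i) =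
      (∑ ω, μ ω * Real.exp (s * ∑ i ∈ W, c i * e ω i) +
        ∑ ω, μ ω * Real.exp (-(s * ∑ i ∈ W, c i * e ω i))) / 2 := by
    rw [← Finset.sum_add_distrib, Finset.sum_div]
    apply Finset.sum_congr rfl
    intro ω _
    rw [Real.cosh_eq]
    ring
  rw [h4]
  linarith

theorem cosh_sub_one (h : IsGood μ e W κ α) (hκ : κ ≤ 2) (c : ℕ → ℝ) (s : ℝ) :
    ∑ ω, μ ω * (Real.cosh (s * ∑ i ∈ W, c i * e ω i) - 1) ≤
      Real.exp (2 * s ^ 2 * ∑ i ∈ W, c i ^ 2) - 1 := by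
  have h1 := h.sg_scale hκ c s
  have : ∑ ω, μ ω * (Real.cosh (s * ∑ i ∈ W, c i * e ω i) - 1) =
      ∑ ω, μ ω * Real.cosh (s * ∑ i ∈ W, c i * e ω i) - 1 := by
    simp_rw [mul_sub, Finset.sum_sub_distrib, mul_one]
    rw [h.sum_one]
  rw [this]
  linarith

/-- second moment upper bound -/
theorem second (h : IsGood μ e W κ α) (hκ : κ ≤ 2) (c : ℕ → ℝ) :
    ∑ ω, μ ω * (∑ i ∈ W, c i * e ω i) ^ 2 ≤ 7 * ∑ i ∈ W, c i ^ 2 := by
  set q := ∑ i ∈ W, c i ^ 2 with hq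
  have hq0 : 0 ≤ q := Finset.sum_nonneg fun i _ => sq_nonneg _
  have key : ∀ s : ℝ, s ^ 2 * ∑ ω, μ ω * (∑ i ∈ W, c i * e ω i) ^ 2 ≤
      2 * (Real.exp (2 * s ^ 2 * q) - 1) := by
    intro s
    have h1 := h.cosh_sub_one hκ c s
    have h2 : s ^ 2 * ∑ ω, μ ω * (∑ i ∈ W, c i * e ω i) ^ 2 ≤
        2 * ∑ ω, μ ω * (Real.cosh (s * ∑ i ∈ W, c i * e ω i) - 1) := by
      rw [Finset.mul_sum, Finset.mul_sum]
      apply Finset.sum_le_sum
      intro ω _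
      have := cosh_ge_two (s * ∑ i ∈ W, c i * e ω i)
      have := mul_le_mul_of_nonneg_left this (h.nonneg ω)
      nlinarith
    linarith
  rcases hq0.eq_or_lt with h0 | h0
  · have := key 1
    rw [← h0] at this ⊢
    simp at this
    simpa using this
  · have := key (Real.sqrt (1 / (2 * q)))
    rw [Real.sq_sqrt (by positivity)] at this
    have e1 : 2 * (1 / (2 * q)) * q = 1 := by field_simp
    rw [e1] at this
    have e2 : Real.exp 1 < 2.7182818286 := Real.exp_one_lt_d9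
    have e3 : 1 / (2 * q) * ∑ ω, μ ω * (∑ i ∈ W, c i * e ω i) ^ 2 ≤ 3.5 := by linarith
    rw [div_mul_eq_mul_div, one_mul, div_le_iff₀ (by positivity)] at e3
    linarith

/-- fourth moment upper bound -/
theorem fourth (h : IsGood μ e W κ α) (hκ : κ ≤ 2) (c : ℕ → ℝ) :
    ∑ ω, μ ω * (∑ i ∈ W, c i * e ω i) ^ 4 ≤ 165 * (∑ i ∈ W, c i ^ 2) ^ 2 := by
  set q := ∑ i ∈ W, c i ^ 2 with hq
  have hq0 : 0 ≤ q := Finset.sum_nonneg fun i _ => sq_nonneg _
  have key : ∀ s : ℝ, s ^ 4 * ∑ ω, μ ω * (∑ i ∈ W, c i * e ω i) ^ 4 ≤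
      24 * (Real.exp (2 * s ^ 2 * q) - 1) := by
    intro s
    have h1 := h.cosh_sub_one hκ c s
    have h2 : s ^ 4 * ∑ ω, μ ω * (∑ i ∈ W, c i * e ω i) ^ 4 ≤
        24 * ∑ ω, μ ω * (Real.cosh (s * ∑ i ∈ W, c i * e ω i) - 1) := by
      rw [Finset.mul_sum, Finset.mul_sum]
      apply Finset.sum_le_sum
      intro ω _
      have := cosh_ge_four (s * ∑ i ∈ W, c i * e ω i)
      have := mul_le_mul_of_nonneg_left this (h.nonneg ω)
      nlinarith
    linarith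
  rcases hq0.eq_or_lt with h0 | h0
  · have := key 1
    rw [← h0] at this ⊢
    simp at this
    simpa using this
  · have := key (Real.sqrt (1 / (2 * q)))
    have e0 : Real.sqrt (1 / (2 * q)) ^ 4 = (1 / (2 * q)) ^ 2 := by
      rw [show (4 : ℕ) = 2 * 2 from rfl, pow_mul, Real.sq_sqrt (by positivity)]
    rw [e0, Real.sq_sqrt (by positivity)] at this
    have e1 : 2 * (1 / (2 * q)) * q = 1 := by field_simp
    rw [e1] at this
    have e2 : Real.exp 1 < 2.7182818286 := Real.exp_one_lt_d9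
    have e3 : (1 / (2 * q)) ^ 2 * ∑ ω, μ ω * (∑ i ∈ W, c i * e ω i) ^ 4 ≤ 41.25 := by linarith
    rw [div_pow, one_pow, div_mul_eq_mul_div, one_mul, div_le_iff₀ (by positivity)] at e3
    linarith

/-- first absolute moment lower bound -/
theorem first (h : IsGood μ e W κ α) (hκ : κ ≤ 2) (hα : 1 / 2 ≤ α) (a : ℝ) (c : ℕ → ℝ) :
    Real.sqrt (a ^ 2 + ∑ i ∈ W, c i ^ 2) / 120 ≤
      ∑ ω, μ ω * |a + ∑ i ∈ W, c i * e ω i| := by
  set q := ∑ i ∈ W, c i ^ 2 with hq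
  have hq0 : 0 ≤ q := Finset.sum_nonneg fun i _ => sq_nonneg _
  set S := a ^ 2 + q with hS
  have hS0 : 0 ≤ S := by positivity
  rcases hS0.eq_or_lt with h0 | h0
  · rw [← h0, Real.sqrt_zero, zero_div]
    exact Finset.sum_nonneg fun ω _ => mul_nonneg (h.nonneg ω) (abs_nonneg _)
  set s := Real.sqrt S with hs
  have hs0 : 0 < s := Real.sqrt_pos.mpr h0
  have hsS : s ^ 2 = S := Real.sq_sqrt hS0
  set σ := 30 * s with hσ
  have hσ0 : 0 < σ := by positivity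
  have h1 : ∑ ω, μ ω * ((a + ∑ i ∈ W, c i * e ω i) ^ 2 / σ -
      (a + ∑ i ∈ W, c i * e ω i) ^ 4 / (6 * σ ^ 3)) ≤
      ∑ ω, μ ω * |a + ∑ i ∈ W, c i * e ω i| :=
    Finset.sum_le_sum fun ω _ =>
      mul_le_mul_of_nonneg_left (abs_ge_aux _ hσ0) (h.nonneg ω)
  refine le_trans ?_ h1
  have h2 : ∑ ω, μ ω * ((a + ∑ i ∈ W, c i * e ω i) ^ 2 / σ -
      (a + ∑ i ∈ W, c i * e ω i) ^ 4 / (6 * σ ^ 3)) =
      (∑ ω, μ ω * (a + ∑ i ∈ W, c i * e ω i) ^ 2) / σ -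
      (∑ ω, μ ω * (a + ∑ i ∈ W, c i * e ω i) ^ 4) / (6 * σ ^ 3) := by
    rw [Finset.sum_div, Finset.sum_div, ← Finset.sum_sub_distrib]
    apply Finset.sum_congr rfl
    intro ω _
    ring
  rw [h2]
  have h3 : S / 2 ≤ ∑ ω, μ ω * (a + ∑ i ∈ W, c i * e ω i) ^ 2 := by
    have hv := h.var c
    rw [← hq] at hv
    have hm := h.mean_lin c
    have : ∑ ω, μ ω * (a + ∑ i ∈ W, c i * e ω i) ^ 2 =
        a ^ 2 * ∑ ω, μ ω + 2 * a * ∑ ω, μ ω * (∑ i ∈ W, c i * e ω i) +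
        ∑ ω, μ ω * (∑ i ∈ W, c i * e ω i) ^ 2 := by
      rw [Finset.mul_sum, Finset.mul_sum, ← Finset.sum_add_distrib, ← Finset.sum_add_distrib]
      apply Finset.sum_congr rfl
      intro ω _
      ring
    rw [this, h.sum_one, hm]
    nlinarith [sq_nonneg a]
  have h4 : ∑ ω, μ ω * (a + ∑ i ∈ W, c i * e ω i) ^ 4 ≤ 1320 * S ^ 2 := by
    have hf := h.fourth hκ c
    rw [← hq] at hf
    have h5 : ∑ ω, μ ω * (a + ∑ i ∈ W, c i * e ω i) ^ 4 ≤
        ∑ ω, μ ω * (8 * (a ^ 4 + (∑ i ∈ W, c i * e ω i) ^ 4)) := by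
      apply Finset.sum_le_sum
      intro ω _
      apply mul_le_mul_of_nonneg_left _ (h.nonneg ω)
      set X := ∑ i ∈ W, c i * e ω i
      nlinarith [sq_nonneg (a - X), sq_nonneg (a + X), sq_nonneg (a ^ 2 - X ^ 2),
        mul_nonneg (sq_nonneg (a - X)) (sq_nonneg (a + X)),
        mul_nonneg (sq_nonneg (a - X)) (sq_nonneg (a - X)),
        mul_nonneg (sq_nonneg (a - X)) (add_nonneg (sq_nonneg a) (sq_nonneg X))]
    have h6 : ∑ ω, μ ω * (8 * (a ^ 4 + (∑ i ∈ W, c i * e ω i) ^ 4)) =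
        8 * a ^ 4 * ∑ ω, μ ω + 8 * ∑ ω, μ ω * (∑ i ∈ W, c i * e ω i) ^ 4 := by
      rw [Finset.mul_sum, Finset.mul_sum, ← Finset.sum_add_distrib]
      apply Finset.sum_congr rfl
      intro ω _
      ring
    rw [h6, h.sum_one] at h5
    nlinarith [mul_nonneg (sq_nonneg a) hq0, sq_nonneg (a ^ 2)]
  have h7 : (∑ ω, μ ω * (a + ∑ i ∈ W, c i * e ω i) ^ 4) / (6 * σ ^ 3) ≤
      1320 * S ^ 2 / (6 * σ ^ 3) := div_le_div_of_nonneg_right h4 (by positivity)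
  have h8 : S / 2 / σ ≤ (∑ ω, μ ω * (a + ∑ i ∈ W, c i * e ω i) ^ 2) / σ :=
    div_le_div_of_nonneg_right h3 hσ0.le
  have h9 : s / 120 ≤ S / 2 / σ - 1320 * S ^ 2 / (6 * σ ^ 3) := by
    rw [← hsS, hσ]
    have : s ^ 2 / 2 / (30 * s) - 1320 * (s ^ 2) ^ 2 / (6 * (30 * s) ^ 3) =
        s / 60 - 1320 * s / 162000 := by
      field_simp
      ring
    rw [this]
    linarith
  linarith

theorem bad_mass (h : IsGood μ e W κ α) (B : Finset Ω) (F : Ω → ℝ) {p M : ℝ}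
    (hp : ∑ ω ∈ B, μ ω ≤ p) (hM : ∑ ω, μ ω * F ω ^ 2 ≤ M) (hp0 : 0 ≤ p) :
    ∑ ω ∈ B, μ ω * |F ω| ≤ Real.sqrt (p * M) := by
  apply Real.le_sqrt_of_sq_le
  have h1 : (∑ ω ∈ B, Real.sqrt (μ ω) * (Real.sqrt (μ ω) * |F ω|)) ^ 2 ≤
      (∑ ω ∈ B, Real.sqrt (μ ω) ^ 2) * ∑ ω ∈ B, (Real.sqrt (μ ω) * |F ω|) ^ 2 :=
    Finset.sum_mul_sq_le_sq_mul_sq _ _ _
  have h2 : ∑ ω ∈ B, Real.sqrt (μ ω) * (Real.sqrt (μ ω) * |F ω|) = ∑ ω ∈ B, μ ω * |F ω| := by
    apply Finset.sum_congr rfl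
    intro ω _
    rw [← mul_assoc, Real.mul_self_sqrt (h.nonneg ω)]
  have h3 : ∑ ω ∈ B, Real.sqrt (μ ω) ^ 2 = ∑ ω ∈ B, μ ω := by
    apply Finset.sum_congr rfl
    intro ω _
    rw [Real.sq_sqrt (h.nonneg ω)]
  have h4 : ∑ ω ∈ B, (Real.sqrt (μ ω) * |F ω|) ^ 2 ≤ M := by
    refine le_trans ?_ hM
    have : ∑ ω ∈ B, (Real.sqrt (μ ω) * |F ω|) ^ 2 = ∑ ω ∈ B, μ ω * F ω ^ 2 := by
      apply Finset.sum_congr rfl
      intro ω _
      rw [mul_pow, Real.sq_sqrt (h.nonneg ω), sq_abs]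
    rw [this]
    exact Finset.sum_le_sum_of_subset_of_nonneg (Finset.subset_univ _)
      fun ω _ _ => mul_nonneg (h.nonneg ω) (sq_nonneg _)
  rw [h2, h3] at h1
  refine h1.trans ?_
  exact mul_le_mul hp h4 (Finset.sum_nonneg fun _ _ => sq_nonneg _) hp0

/-- Conditioning: remove a small bad set while keeping all the properties. -/
theorem condition [DecidableEq Ω] (h : IsGood μ e W κ α) (hκ : κ ≤ 2) (hα : 1 / 2 ≤ α)
    (hα1 : α ≤ 1) {δ : ℝ} (hδ : 0 < δ) (hδ1 : δ ≤ 1) (G : Finset Ω)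
    (hp : ∑ ω ∈ Gᶜ, μ ω ≤ (δ / 720) ^ 2) :
    ∃ μ' : Ω → ℝ, (∀ ω, μ' ω ≠ 0 → μ ω ≠ 0 ∧ ω ∈ G) ∧
      IsGood μ' e W (κ + 2 * δ) (α - 2 * δ) := by
  -- the reweighting
  have hB : ∀ (a : ℝ) (c : ℕ → ℝ), ∑ ω ∈ Gᶜ, μ ω * |a + ∑ i ∈ W, c i * e ω i| ≤
      δ / 240 * Real.sqrt (a ^ 2 + ∑ i ∈ W, c i ^ 2) := by
    intro a c
    have hq0 : 0 ≤ ∑ i ∈ W, c i ^ 2 := Finset.sum_nonneg fun i _ => sq_nonneg _
    set q := ∑ i ∈ W, c i ^ 2 with hq
    have h1 : ∑ ω, μ ω * (a + ∑ i ∈ W, c i * e ω i) ^ 2 ≤ 9 * (a ^ 2 + q) := by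
      have hm := h.mean_lin c
      have hs := h.second hκ c
      rw [← hq] at hs
      have : ∑ ω, μ ω * (a + ∑ i ∈ W, c i * e ω i) ^ 2 =
          a ^ 2 * ∑ ω, μ ω + 2 * a * ∑ ω, μ ω * (∑ i ∈ W, c i * e ω i) +
          ∑ ω, μ ω * (∑ i ∈ W, c i * e ω i) ^ 2 := by
        rw [Finset.mul_sum, Finset.mul_sum, ← Finset.sum_add_distrib, ← Finset.sum_add_distrib]
        apply Finset.sum_congr rfl
        intro ω _
        ring
      rw [this, h.sum_one, hm]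
      nlinarith [sq_nonneg a]
    have h2 := h.bad_mass Gᶜ (fun ω => a + ∑ i ∈ W, c i * e ω i) hp h1 (by positivity)
    refine h2.trans (le_of_eq ?_)
    rw [show (δ / 720) ^ 2 * (9 * (a ^ 2 + q)) = (δ / 240) ^ 2 * (a ^ 2 + q) by ring,
      Real.sqrt_mul (by positivity), Real.sqrt_sq (by positivity)]
  set V : Ω → Option W → ℝ := fun ω o => o.elim 1 (fun i => e ω i) with hV
  set v : Option W → ℝ := fun o => ∑ ω ∈ Gᶜ, μ ω * V ω o with hv
  have hlin : ∀ (c : Option W → ℝ) (ω : Ω), ∑ o, c o * V ω o =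
      c none + ∑ i ∈ W, (if hi : i ∈ W then c (some ⟨i, hi⟩) else 0) * e ω i := by
    intro c ω
    rw [Fintype.sum_option]
    congr 1
    · simp [hV]
    · rw [← Finset.sum_attach W, ← Finset.univ_eq_attach]
      apply Finset.sum_congr rfl
      intro i _
      simp [hV]
  obtain ⟨φ, hφδ, hφ⟩ := exists_reweight V μ G hδ.le v (by
    intro c
    set c' : ℕ → ℝ := fun i => if hi : i ∈ W then c (some ⟨i, hi⟩) else 0 with hc'
    have e1 : ∑ o, c o * v o = ∑ ω ∈ Gᶜ, μ ω * (c none + ∑ i ∈ W, c' i * e ω i) := by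
      simp only [hv]
      simp_rw [Finset.mul_sum]
      rw [Finset.sum_comm]
      apply Finset.sum_congr rfl
      intro ω _
      rw [← hlin c ω, Finset.mul_sum]
      apply Finset.sum_congr rfl
      intro o _
      ring
    rw [e1]
    have e2 : ∑ ω ∈ G, μ ω * |∑ o, c o * V ω o| =
        ∑ ω ∈ G, μ ω * |c none + ∑ i ∈ W, c' i * e ω i| := by
      apply Finset.sum_congr rfl
      intro ω _
      rw [hlin]
    rw [e2]
    have h1 := hB (c none) c'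
    have h2 := h.first hκ hα (c none) c'
    have h3 : ∑ ω, μ ω * |c none + ∑ i ∈ W, c' i * e ω i| =
        ∑ ω ∈ G, μ ω * |c none + ∑ i ∈ W, c' i * e ω i| +
        ∑ ω ∈ Gᶜ, μ ω * |c none + ∑ i ∈ W, c' i * e ω i| :=
      (Finset.sum_add_sum_compl G _).symm
    have h4 : ∑ ω ∈ Gᶜ, μ ω * (c none + ∑ i ∈ W, c' i * e ω i) ≤
        ∑ ω ∈ Gᶜ, μ ω * |c none + ∑ i ∈ W, c' i * e ω i| :=
      Finset.sum_le_sum fun ω _ => mul_le_mul_of_nonneg_left (le_abs_self _) (h.nonneg ω)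
    set s := Real.sqrt (c none ^ 2 + ∑ i ∈ W, c' i ^ 2) with hs
    have hs0 : 0 ≤ s := Real.sqrt_nonneg _
    have h5 : s / 120 - δ / 240 * s ≤ ∑ ω ∈ G, μ ω * |c none + ∑ i ∈ W, c' i * e ω i| := by
      linarith
    have h6 : δ / 240 * s ≤ δ * (s / 120 - δ / 240 * s) := by
      have : δ * s * δ ≤ δ * s * 1 := mul_le_mul_of_nonneg_left hδ1 (by positivity)
      nlinarith
    have h7 := mul_le_mul_of_nonneg_left h5 hδ.le
    linarith)
  -- the new weight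
  have hsplit : ∀ F : Ω → ℝ, ∑ ω, (if ω ∈ G then μ ω * (1 + φ ω) else 0) * F ω =
      ∑ ω ∈ G, μ ω * (1 + φ ω) * F ω := by
    intro F
    rw [← Finset.sum_subset (Finset.subset_univ G)]
    · apply Finset.sum_congr rfl
      intro ω hω
      rw [if_pos hω]
    · intro ω _ hω
      rw [if_neg hω, zero_mul]
  have hone : ∑ ω, (if ω ∈ G then μ ω * (1 + φ ω) else 0) = 1 := by
    have h1 := hsplit (fun _ => 1)
    simp only [mul_one] at h1
    rw [h1]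
    have h2 := hφ none
    simp only [hv, hV, Option.elim_none, mul_one] at h2
    have h3 := Finset.sum_add_sum_compl G μ
    rw [h.sum_one] at h3
    simp_rw [mul_add, Finset.sum_add_distrib, mul_one]
    linarith
  have hmean : ∀ i ∈ W, ∑ ω, (if ω ∈ G then μ ω * (1 + φ ω) else 0) * e ω i = 0 := by
    intro i hi
    rw [hsplit]
    have h2 := hφ (some ⟨i, hi⟩)
    simp only [hv, hV, Option.elim_some] at h2
    have h3 := Finset.sum_add_sum_compl G (fun ω => μ ω * e ω i)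
    rw [h.mean i hi] at h3
    simp_rw [mul_add, add_mul, Finset.sum_add_distrib, mul_one]
    linarith
  have hφ1 : ∀ ω, 0 ≤ 1 + φ ω := by
    intro ω
    have := abs_le.mp (hφδ ω)
    linarith [this.1]
  have hφ2 : ∀ ω, 1 + φ ω ≤ 1 + δ := by
    intro ω
    have := abs_le.mp (hφδ ω)
    linarith [this.2]
  have hφ3 : ∀ ω, 1 - δ ≤ 1 + φ ω := by
    intro ω
    have := abs_le.mp (hφδ ω)
    linarith [this.1]
  refine ⟨fun ω => if ω ∈ G then μ ω * (1 + φ ω) else 0, ?_, ?_, hone, hmean, ?_, ?_⟩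
  · intro ω hω
    by_cases hG : ω ∈ G
    · simp only [if_pos hG] at hω
      exact ⟨left_ne_zero_of_mul hω, hG⟩
    · simp only [if_neg hG] at hω
      exact absurd rfl hω
  · intro ω
    show 0 ≤ if ω ∈ G then μ ω * (1 + φ ω) else 0
    split_ifs
    · exact mul_nonneg (h.nonneg ω) (hφ1 ω)
    · exact le_rfl
  · intro c
    set q := ∑ i ∈ W, c i ^ 2 with hq
    have hq0 : 0 ≤ q := Finset.sum_nonneg fun i _ => sq_nonneg _
    have hm' : ∑ ω, (if ω ∈ G then μ ω * (1 + φ ω) else 0) * (∑ i ∈ W, c i * e ω i) = 0 := by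
      simp_rw [Finset.mul_sum]
      rw [Finset.sum_comm]
      apply Finset.sum_eq_zero
      intro i hi
      have := hmean i hi
      calc ∑ ω, (if ω ∈ G then μ ω * (1 + φ ω) else 0) * (c i * e ω i)
          = c i * ∑ ω, (if ω ∈ G then μ ω * (1 + φ ω) else 0) * e ω i := by
            rw [Finset.mul_sum]
            apply Finset.sum_congr rfl
            intro ω _
            ring
        _ = 0 := by rw [this, mul_zero]
    have h1 : ∑ ω, (if ω ∈ G then μ ω * (1 + φ ω) else 0) * Real.exp (∑ i ∈ W, c i * e ω i) =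
        1 + ∑ ω ∈ G, μ ω * (1 + φ ω) *
          (Real.exp (∑ i ∈ W, c i * e ω i) - 1 - ∑ i ∈ W, c i * e ω i) := by
      rw [← hsplit (fun ω => Real.exp (∑ i ∈ W, c i * e ω i) - 1 - ∑ i ∈ W, c i * e ω i)]
      simp_rw [mul_sub, Finset.sum_sub_distrib, mul_one]
      rw [hone, hm']
      ring
    have hpos : ∀ ω, 0 ≤ Real.exp (∑ i ∈ W, c i * e ω i) - 1 - ∑ i ∈ W, c i * e ω i := by
      intro ω
      have := Real.add_one_le_exp (∑ i ∈ W, c i * e ω i)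
      linarith
    have h2 : ∑ ω ∈ G, μ ω * (1 + φ ω) *
          (Real.exp (∑ i ∈ W, c i * e ω i) - 1 - ∑ i ∈ W, c i * e ω i) ≤
        ∑ ω ∈ G, (1 + δ) * (μ ω *
          (Real.exp (∑ i ∈ W, c i * e ω i) - 1 - ∑ i ∈ W, c i * e ω i)) := by
      apply Finset.sum_le_sum
      intro ω _
      have h3 := mul_nonneg (h.nonneg ω) (hpos ω)
      have h4 := mul_le_mul_of_nonneg_right (hφ2 ω) h3
      linarith
    have h3 : ∑ ω ∈ G, (1 + δ) * (μ ω *
          (Real.exp (∑ i ∈ W, c i * e ω i) - 1 - ∑ i ∈ W, c i * e ω i)) ≤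
        ∑ ω, (1 + δ) * (μ ω *
          (Real.exp (∑ i ∈ W, c i * e ω i) - 1 - ∑ i ∈ W, c i * e ω i)) :=
      Finset.sum_le_sum_of_subset_of_nonneg (Finset.subset_univ _)
        fun ω _ _ => mul_nonneg (by linarith) (mul_nonneg (h.nonneg ω) (hpos ω))
    have h4 : ∑ ω, (1 + δ) * (μ ω *
          (Real.exp (∑ i ∈ W, c i * e ω i) - 1 - ∑ i ∈ W, c i * e ω i)) =
        (1 + δ) * (∑ ω, μ ω * Real.exp (∑ i ∈ W, c i * e ω i) - 1) := by
      rw [← Finset.mul_sum]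
      simp_rw [mul_sub, Finset.sum_sub_distrib, mul_one]
      rw [h.sum_one, h.mean_lin c]
      ring
    have h5 := h.sg c
    rw [← hq] at h5
    have h6 : (1 + δ) * (∑ ω, μ ω * Real.exp (∑ i ∈ W, c i * e ω i) - 1) ≤
        (1 + δ) * (Real.exp (κ * q) - 1) :=
      mul_le_mul_of_nonneg_left (by linarith) (by linarith)
    have h7 : 1 + (1 + δ) * (Real.exp (κ * q) - 1) ≤ Real.exp ((κ + 2 * δ) * q) := by
      have h8 := one_add_mul_self_le_rpow_one_add (s := Real.exp (κ * q) - 1)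
        (by linarith [Real.exp_pos (κ * q)]) (p := 1 + δ) (by linarith)
      rw [show 1 + (Real.exp (κ * q) - 1) = Real.exp (κ * q) by ring, ← Real.exp_mul] at h8
      refine h8.trans (Real.exp_le_exp.mpr ?_)
      have : κ * (δ * q) ≤ 2 * (δ * q) := mul_le_mul_of_nonneg_right hκ (by positivity)
      nlinarith
    linarith
  · intro c
    set q := ∑ i ∈ W, c i ^ 2 with hq
    have hq0 : 0 ≤ q := Finset.sum_nonneg fun i _ => sq_nonneg _
    rw [hsplit]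
    have h1 : ∑ ω ∈ G, (1 - δ) * (μ ω * (∑ i ∈ W, c i * e ω i) ^ 2) ≤
        ∑ ω ∈ G, μ ω * (1 + φ ω) * (∑ i ∈ W, c i * e ω i) ^ 2 := by
      apply Finset.sum_le_sum
      intro ω _
      have h3 := mul_nonneg (h.nonneg ω) (sq_nonneg (∑ i ∈ W, c i * e ω i))
      have h4 := mul_le_mul_of_nonneg_right (hφ3 ω) h3
      linarith
    refine le_trans ?_ h1
    rw [← Finset.mul_sum]
    have h2 := Finset.sum_add_sum_compl G (fun ω => μ ω * (∑ i ∈ W, c i * e ω i) ^ 2)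
    have h3 := h.var c
    rw [← hq] at h3
    have h4 : ∑ ω ∈ Gᶜ, μ ω * |(∑ i ∈ W, c i * e ω i) ^ 2| ≤
        Real.sqrt ((δ / 720) ^ 2 * (165 * q ^ 2)) := by
      apply h.bad_mass Gᶜ (fun ω => (∑ i ∈ W, c i * e ω i) ^ 2) hp _ (by positivity)
      have := h.fourth hκ c
      rw [← hq] at this
      refine le_trans (le_of_eq ?_) this
      apply Finset.sum_congr rfl
      intro ω _
      ring
    have h5 : Real.sqrt ((δ / 720) ^ 2 * (165 * q ^ 2)) ≤ δ / 50 * q := by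
      rw [Real.sqrt_le_left (by positivity)]
      nlinarith [mul_nonneg (sq_nonneg δ) (sq_nonneg q)]
    have h6 : ∑ ω ∈ Gᶜ, μ ω * (∑ i ∈ W, c i * e ω i) ^ 2 ≤ δ / 50 * q := by
      refine le_trans (le_of_eq ?_) (h4.trans h5)
      apply Finset.sum_congr rfl
      intro ω _
      rw [abs_of_nonneg (sq_nonneg _)]
    have h7 : α * q - δ / 50 * q ≤ ∑ ω ∈ G, μ ω * (∑ i ∈ W, c i * e ω i) ^ 2 := by
      linarith
    have h8 := mul_le_mul_of_nonneg_left h7 (show 0 ≤ 1 - δ by linarith)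
    refine le_trans ?_ h8
    have h9 : α * (δ * q) ≤ 1 * (δ * q) := mul_le_mul_of_nonneg_right hα1 (by positivity)
    nlinarith [mul_nonneg (sq_nonneg δ) hq0, mul_nonneg hδ.le hq0]

/-- Tail bound in one direction. -/
theorem tail (h : IsGood μ e W κ α) (hκ : κ ≤ 2) (c : ℕ → ℝ) (hc : ∑ i ∈ W, c i ^ 2 ≤ 1)
    {l : ℝ} (hl : 0 ≤ l) (B : Finset Ω) (hB : ∀ ω ∈ B, l < |∑ i ∈ W, c i * e ω i|) :
    ∑ ω ∈ B, μ ω ≤ 2 * Real.exp (-l ^ 2 / 8) := by
  have hs := h.sg_scale hκ c (l / 4)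
  have h1 : ∑ ω ∈ B, μ ω * (Real.exp (l ^ 2 / 4) / 2) ≤
      ∑ ω, μ ω * Real.cosh (l / 4 * ∑ i ∈ W, c i * e ω i) := by
    have h2 : ∑ ω ∈ B, μ ω * (Real.exp (l ^ 2 / 4) / 2) ≤
        ∑ ω ∈ B, μ ω * Real.cosh (l / 4 * ∑ i ∈ W, c i * e ω i) := by
      apply Finset.sum_le_sum
      intro ω hω
      apply mul_le_mul_of_nonneg_left _ (h.nonneg ω)
      rw [← Real.cosh_abs, abs_mul, abs_of_nonneg (show 0 ≤ l / 4 by positivity)]
      have h3 : l ^ 2 / 4 ≤ l / 4 * |∑ i ∈ W, c i * e ω i| := by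
        have := mul_le_mul_of_nonneg_left (hB ω hω).le (show 0 ≤ l / 4 by positivity)
        nlinarith
      have h4 : Real.exp (l ^ 2 / 4) ≤ Real.exp (l / 4 * |∑ i ∈ W, c i * e ω i|) :=
        Real.exp_le_exp.mpr h3
      have h5 := Real.exp_pos (-(l / 4 * |∑ i ∈ W, c i * e ω i|))
      rw [Real.cosh_eq]
      linarith
    refine h2.trans ?_
    exact Finset.sum_le_sum_of_subset_of_nonneg (Finset.subset_univ _)
      fun ω _ _ => mul_nonneg (h.nonneg ω) (Real.cosh_pos _).le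
  rw [← Finset.sum_mul] at h1
  have h2 : Real.exp (2 * (l / 4) ^ 2 * ∑ i ∈ W, c i ^ 2) ≤ Real.exp (l ^ 2 / 8) := by
    apply Real.exp_le_exp.mpr
    nlinarith [mul_le_mul_of_nonneg_left hc (sq_nonneg l)]
  have h3 : (∑ ω ∈ B, μ ω) * Real.exp (l ^ 2 / 4) ≤ 2 * Real.exp (l ^ 2 / 8) := by linarith
  have h4 : Real.exp (-l ^ 2 / 8) = Real.exp (l ^ 2 / 8) / Real.exp (l ^ 2 / 4) := by
    rw [← Real.exp_sub]
    congr 1
    ring
  rw [h4, ← mul_div_assoc, le_div_iff₀ (Real.exp_pos _)]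
  exact h3

end IsGood

end Pool.Agent.H.MP_02f3ba_co
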