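import Mathlib
import Pool.Agent.H.MP_02f3ba_co.Reweight

/-!
# Conditional measures on windows: base step, composition, conditioning, induction over levels
-/

namespace Pool.Agent.H.MP_02f3ba_co

open Finset

/-- the sign path of a finite bit string -/
noncomputable def path {T : ℕ} (ω : Fin T → Bool) (n : ℕ) : ℝ :=
  if h : n < T then (if ω ⟨n, h⟩ then 1 else -1) else 1

theorem path_sign {T : ℕ} (ω : Fin T → Bool) (n : ℕ) : path ω n = 1 ∨ path ω n = -1 := by
  unfold path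
  split_ifs <;> simp

/-- agreement below `s` -/
def Agree {T : ℕ} (s : ℕ) (ω ω' : Fin T → Bool) : Prop := ∀ n : Fin T, (n : ℕ) < s → ω n = ω' n

theorem Agree.refl {T : ℕ} (s : ℕ) (ω : Fin T → Bool) : Agree s ω ω := fun _ _ => rfl

theorem Agree.symm {T s : ℕ} {ω ω' : Fin T → Bool} (h : Agree s ω ω') : Agree s ω' ω :=
  fun n hn => (h n hn).symm

theorem Agree.trans {T s : ℕ} {ω ω' ω'' : Fin T → Bool} (h : Agree s ω ω')
    (h' : Agree s ω' ω'') : Agree s ω ω'' :=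
  fun n hn => (h n hn).trans (h' n hn)

theorem Agree.mono {T s t : ℕ} (hst : s ≤ t) {ω ω' : Fin T → Bool} (h : Agree t ω ω') :
    Agree s ω ω' := fun n hn => h n (hn.trans_le hst)

theorem Agree.path {T s : ℕ} {ω ω' : Fin T → Bool} (h : Agree s ω ω') (m : ℕ) (hm : m < s) :
    path ω m = path ω' m := by
  unfold MP_02f3ba_co.path
  by_cases hT : m < T
  · rw [dif_pos hT, dif_pos hT, h ⟨m, hT⟩ hm]
  · rw [dif_neg hT, dif_neg hT]

/-- innovations of a predictor -/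
noncomputable def innov {T : ℕ} (x : (ℕ → ℝ) → ℕ → ℝ) (ω : Fin T → Bool) (n : ℕ) : ℝ :=
  path ω n - x (path ω) n

/-- a predictor only looks at the past -/
def Causal (x : (ℕ → ℝ) → ℕ → ℝ) : Prop :=
  ∀ (y y' : ℕ → ℝ) (n : ℕ), (∀ m < n, y m = y' m) → x y n = x y' n

theorem Agree.innov {T s : ℕ} {x : (ℕ → ℝ) → ℕ → ℝ} (hx : Causal x) {ω ω' : Fin T → Bool}
    (h : Agree s ω ω') (m : ℕ) (hm : m < s) : innov x ω m = innov x ω' m := by
  unfold MP_02f3ba_co.innov
  rw [h.path m hm, hx _ _ m (fun j hj => h.path j (hj.trans hm))]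

/-- For every history there is a good conditional weight on the window `[s, t)` supported on `G`. -/
def HasKer {T : ℕ} (x : (ℕ → ℝ) → ℕ → ℝ) (s t : ℕ) (G : (Fin T → Bool) → Prop)
    (κ α : ℝ) : Prop :=
  ∀ ω : Fin T → Bool, ∃ μ : (Fin T → Bool) → ℝ,
    (∀ ω', μ ω' ≠ 0 → Agree s ω' ω ∧ G ω') ∧ IsGood μ (innov x) (Finset.Ico s t) κ α

theorem cosh_bound {x c : ℝ} (hx : |x| ≤ 1) :
    (1 + x) / 2 * Real.exp (c * (1 - x)) + (1 - x) / 2 * Real.exp (c * (-1 - x)) ≤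
      Real.exp (c ^ 2) := by
  have hx' := abs_le.mp hx
  have h1 : (1 + x) / 2 * Real.exp (c * (1 - x)) + (1 - x) / 2 * Real.exp (c * (-1 - x)) =
      Real.exp (-c * x) * ((1 + x) / 2 * Real.exp c + (1 - x) / 2 * Real.exp (-c)) := by
    rw [show c * (1 - x) = -c * x + c by ring, show c * (-1 - x) = -c * x + -c by ring,
      Real.exp_add, Real.exp_add]
    ring
  have h2 : Real.exp (-c * x) ≤ (1 + x) / 2 * Real.exp (-c) + (1 - x) / 2 * Real.exp c := by
    have := convexOn_exp.2 (Set.mem_univ (-c)) (Set.mem_univ c)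
      (show 0 ≤ (1 + x) / 2 by linarith) (show 0 ≤ (1 - x) / 2 by linarith) (by ring)
    simp only [smul_eq_mul] at this
    refine le_trans (le_of_eq ?_) this
    congr 1
    ring
  have h3 : 0 ≤ (1 + x) / 2 * Real.exp c + (1 - x) / 2 * Real.exp (-c) :=
    add_nonneg (mul_nonneg (by linarith) (Real.exp_pos _).le)
      (mul_nonneg (by linarith) (Real.exp_pos _).le)
  rw [h1]
  refine (mul_le_mul_of_nonneg_right h2 h3).trans ?_
  have h4 : Real.cosh c ≤ Real.exp (c ^ 2 / 2) := Real.cosh_le_exp_half_sq c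
  have h5 : Real.cosh c ^ 2 ≤ Real.exp (c ^ 2 / 2) ^ 2 :=
    pow_le_pow_left₀ (Real.cosh_pos _).le h4 2
  have h6 : Real.exp (c ^ 2 / 2) ^ 2 = Real.exp (c ^ 2) := by
    rw [← Real.exp_nat_mul]
    congr 1
    push_cast
    ring
  rw [h6] at h5
  refine le_trans ?_ h5
  have h7 : Real.exp c * Real.exp (-c) = 1 := by
    rw [← Real.exp_add]; simp
  rw [Real.cosh_eq]
  have h8 : 0 ≤ (Real.exp c - Real.exp (-c)) ^ 2 * x ^ 2 := by positivity
  nlinarith

/-- Base step: one time step. -/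
theorem hasKer_single {T : ℕ} {x : (ℕ → ℝ) → ℕ → ℝ} (hx : Causal x)
    (hx2 : ∀ y n, |x y n| ≤ 1 / 2) (n : ℕ) (hn : n < T) :
    HasKer (T := T) x n (n + 1) (fun _ => True) 1 (3 / 4) := by
  classical
  intro ω
  set ξ := x (path ω) n with hξ
  have hξ2 : |ξ| ≤ 1 / 2 := hx2 _ _
  have hξ' := abs_le.mp hξ2
  set ωp : Fin T → Bool := Function.update ω ⟨n, hn⟩ true with hωp
  set ωm : Fin T → Bool := Function.update ω ⟨n, hn⟩ false with hωm
  have hne : ωp ≠ ωm := by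
    intro h
    have := congrFun h ⟨n, hn⟩
    simp [hωp, hωm] at this
  have hap : Agree n ωp ω := by
    intro m hm
    have : m ≠ ⟨n, hn⟩ := by
      intro h
      rw [h] at hm
      exact lt_irrefl _ hm
    simp [hωp, Function.update_of_ne this]
  have ham : Agree n ωm ω := by
    intro m hm
    have : m ≠ ⟨n, hn⟩ := by
      intro h
      rw [h] at hm
      exact lt_irrefl _ hm
    simp [hωm, Function.update_of_ne this]
  have hep : innov x ωp n = 1 - ξ := by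
    unfold innov
    have h1 : path ωp n = 1 := by
      simp [path, hn, hωp]
    have h2 : x (path ωp) n = ξ := hx _ _ n (fun m hm => hap.path m hm)
    rw [h1, h2]
  have hem : innov x ωm n = -1 - ξ := by
    unfold innov
    have h1 : path ωm n = -1 := by
      simp [path, hn, hωm]
    have h2 : x (path ωm) n = ξ := hx _ _ n (fun m hm => ham.path m hm)
    rw [h1, h2]
  set μ : (Fin T → Bool) → ℝ := fun ω' =>
    if ω' = ωp then (1 + ξ) / 2 else if ω' = ωm then (1 - ξ) / 2 else 0 with hμ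
  have hsum : ∀ F : (Fin T → Bool) → ℝ, ∑ ω', μ ω' * F ω' =
      (1 + ξ) / 2 * F ωp + (1 - ξ) / 2 * F ωm := by
    intro F
    rw [← Finset.sum_subset (Finset.subset_univ {ωp, ωm})]
    · rw [Finset.sum_pair hne]
      simp [hμ, hne.symm]
    · intro ω' _ hω'
      simp only [Finset.mem_insert, Finset.mem_singleton, not_or] at hω'
      simp [hμ, hω'.1, hω'.2]
  have hW : Finset.Ico n (n + 1) = {n} := by
    ext m
    simp only [Finset.mem_Ico, Finset.mem_singleton]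
    omega
  refine ⟨μ, ?_, ?_, ?_, ?_, ?_, ?_⟩
  · intro ω' hω'
    by_cases h1 : ω' = ωp
    · exact ⟨h1 ▸ hap, trivial⟩
    · by_cases h2 : ω' = ωm
      · exact ⟨h2 ▸ ham, trivial⟩
      · simp [hμ, h1, h2] at hω'
  · intro ω'
    simp only [hμ]
    split_ifs
    · linarith
    · linarith
    · exact le_rfl
  · have := hsum (fun _ => 1)
    simp only [mul_one] at this
    rw [this]
    ring
  · intro i hi
    rw [hW, Finset.mem_singleton] at hi
    rw [hi, hsum, hep, hem]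
    ring
  · intro c
    rw [hW]
    simp only [Finset.sum_singleton]
    rw [hsum, hep, hem, one_mul]
    exact cosh_bound (by linarith)
  · intro c
    rw [hW]
    simp only [Finset.sum_singleton]
    rw [hsum, hep, hem]
    have : (1 + ξ) / 2 * (c n * (1 - ξ)) ^ 2 + (1 - ξ) / 2 * (c n * (-1 - ξ)) ^ 2 =
        c n ^ 2 * (1 - ξ ^ 2) := by ring
    rw [this]
    have h2 : ξ ^ 2 ≤ 1 / 4 := by nlinarith
    nlinarith [mul_le_mul_of_nonneg_left h2 (sq_nonneg (c n))]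

/-- Composition of two consecutive windows. -/
theorem HasKer.comp {T : ℕ} {x : (ℕ → ℝ) → ℕ → ℝ} (hx : Causal x) {s t u : ℕ}
    (hst : s ≤ t) (htu : t ≤ u) {G G' : (Fin T → Bool) → Prop} {κ α : ℝ}
    (hG : ∀ ω ω' : Fin T → Bool, Agree t ω ω' → G ω → G ω')
    (h1 : HasKer x s t G κ α) (h2 : HasKer x t u G' κ α) :
    HasKer x s u (fun ω => G ω ∧ G' ω) κ α := by
  classical
  intro ω
  obtain ⟨μ, hμ, hμg⟩ := h1 ω
  choose ν hν hνg using h2
  have hsum : ∀ F : (Fin T → Bool) → ℝ, ∑ ω'', (∑ ω', μ ω' * ν ω' ω'') * F ω'' =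
      ∑ ω', μ ω' * ∑ ω'', ν ω' ω'' * F ω'' := by
    intro F
    simp_rw [Finset.sum_mul, Finset.mul_sum]
    rw [Finset.sum_comm]
    apply Finset.sum_congr rfl
    intro ω' _
    apply Finset.sum_congr rfl
    intro ω'' _
    ring
  have hsplit : ∀ (F : ℕ → ℝ), ∑ i ∈ Finset.Ico s u, F i =
      ∑ i ∈ Finset.Ico s t, F i + ∑ i ∈ Finset.Ico t u, F i := by
    intro F
    exact (Finset.sum_Ico_consecutive F hst htu).symm
  have hpast : ∀ (ω' ω'' : Fin T → Bool), ν ω' ω'' ≠ 0 → ∀ i ∈ Finset.Ico s t,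
      innov x ω'' i = innov x ω' i := by
    intro ω' ω'' h i hi
    exact (hν ω' ω'' h).1.innov hx i (Finset.mem_Ico.mp hi).2
  have hcongr : ∀ (ω' : Fin T → Bool) (F F' : (Fin T → Bool) → ℝ),
      (∀ ω'', ν ω' ω'' ≠ 0 → F ω'' = F' ω'') →
      ∑ ω'', ν ω' ω'' * F ω'' = ∑ ω'', ν ω' ω'' * F' ω'' := by
    intro ω' F F' h
    apply Finset.sum_congr rfl
    intro ω'' _
    by_cases h0 : ν ω' ω'' = 0
    · rw [h0, zero_mul, zero_mul]
    · rw [h ω'' h0]
  have hlin : ∀ (c : ℕ → ℝ) (ω' ω'' : Fin T → Bool), ν ω' ω'' ≠ 0 →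
      ∑ i ∈ Finset.Ico s u, c i * innov x ω'' i =
      ∑ i ∈ Finset.Ico s t, c i * innov x ω' i + ∑ i ∈ Finset.Ico t u, c i * innov x ω'' i := by
    intro c ω' ω'' h
    rw [hsplit]
    congr 1
    apply Finset.sum_congr rfl
    intro i hi
    rw [hpast ω' ω'' h i hi]
  refine ⟨fun ω'' => ∑ ω', μ ω' * ν ω' ω'', ?_, ?_, ?_, ?_, ?_, ?_⟩
  · intro ω'' h
    obtain ⟨ω', _, hω'⟩ := Finset.exists_ne_zero_of_sum_ne_zero h
    have ha := hμ ω' (left_ne_zero_of_mul hω')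
    have hb := hν ω' ω'' (right_ne_zero_of_mul hω')
    refine ⟨(hb.1.mono hst).trans ha.1, hG ω' ω'' hb.1.symm ha.2, hb.2⟩
  · intro ω''
    exact Finset.sum_nonneg fun ω' _ => mul_nonneg (hμg.nonneg ω') ((hνg ω').nonneg ω'')
  · have := hsum (fun _ => 1)
    simp only [mul_one] at this
    rw [this]
    simp_rw [(hνg _).sum_one, mul_one]
    exact hμg.sum_one
  · intro i hi
    rw [hsum]
    rw [Finset.mem_Ico] at hi
    by_cases hit : i < t
    · have : ∀ ω', ∑ ω'', ν ω' ω'' * innov x ω'' i = innov x ω' i := by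
        intro ω'
        rw [hcongr ω' _ (fun _ => innov x ω' i)
          (fun ω'' h => hpast ω' ω'' h i (Finset.mem_Ico.mpr ⟨hi.1, hit⟩))]
        rw [← Finset.sum_mul, (hνg ω').sum_one, one_mul]
      simp_rw [this]
      exact hμg.mean i (Finset.mem_Ico.mpr ⟨hi.1, hit⟩)
    · have : ∀ ω', ∑ ω'', ν ω' ω'' * innov x ω'' i = 0 := fun ω' =>
        (hνg ω').mean i (Finset.mem_Ico.mpr ⟨not_lt.mp hit, hi.2⟩)
      simp_rw [this, mul_zero]
      exact Finset.sum_const_zero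
  · intro c
    rw [hsum]
    have h3 : ∀ ω', ∑ ω'', ν ω' ω'' * Real.exp (∑ i ∈ Finset.Ico s u, c i * innov x ω'' i) ≤
        Real.exp (κ * ∑ i ∈ Finset.Ico t u, c i ^ 2) *
          Real.exp (∑ i ∈ Finset.Ico s t, c i * innov x ω' i) := by
      intro ω'
      rw [hcongr ω' _ (fun ω'' => Real.exp (∑ i ∈ Finset.Ico s t, c i * innov x ω' i) *
        Real.exp (∑ i ∈ Finset.Ico t u, c i * innov x ω'' i))
        (fun ω'' h => by rw [← Real.exp_add, hlin c ω' ω'' h])]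
      have h4 := (hνg ω').sg c
      have h5 : ∑ ω'', ν ω' ω'' * (Real.exp (∑ i ∈ Finset.Ico s t, c i * innov x ω' i) *
        Real.exp (∑ i ∈ Finset.Ico t u, c i * innov x ω'' i)) =
        (∑ ω'', ν ω' ω'' * Real.exp (∑ i ∈ Finset.Ico t u, c i * innov x ω'' i)) *
        Real.exp (∑ i ∈ Finset.Ico s t, c i * innov x ω' i) := by
        rw [Finset.sum_mul]
        apply Finset.sum_congr rfl
        intro ω'' _
        ring
      rw [h5]
      exact mul_le_mul_of_nonneg_right h4 (Real.exp_pos _).le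
    have h6 : ∑ ω', μ ω' *
        ∑ ω'', ν ω' ω'' * Real.exp (∑ i ∈ Finset.Ico s u, c i * innov x ω'' i) ≤
        ∑ ω', μ ω' * (Real.exp (κ * ∑ i ∈ Finset.Ico t u, c i ^ 2) *
          Real.exp (∑ i ∈ Finset.Ico s t, c i * innov x ω' i)) :=
      Finset.sum_le_sum fun ω' _ => mul_le_mul_of_nonneg_left (h3 ω') (hμg.nonneg ω')
    refine h6.trans ?_
    have h7 : ∀ E : ℝ, ∑ ω', μ ω' * (E *
          Real.exp (∑ i ∈ Finset.Ico s t, c i * innov x ω' i)) =
        E * ∑ ω', μ ω' * Real.exp (∑ i ∈ Finset.Ico s t, c i * innov x ω' i) := by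
      intro E
      rw [Finset.mul_sum]
      apply Finset.sum_congr rfl
      intro ω' _
      ring
    rw [h7]
    refine (mul_le_mul_of_nonneg_left (hμg.sg c) (Real.exp_pos _).le).trans ?_
    rw [← Real.exp_add, hsplit]
    apply Real.exp_le_exp.mpr
    linarith
  · intro c
    rw [hsum]
    have h3 : ∀ ω', (∑ i ∈ Finset.Ico s t, c i * innov x ω' i) ^ 2 +
        α * ∑ i ∈ Finset.Ico t u, c i ^ 2 ≤
        ∑ ω'', ν ω' ω'' * (∑ i ∈ Finset.Ico s u, c i * innov x ω'' i) ^ 2 := by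
      intro ω'
      rw [hcongr ω' _ (fun ω'' => (∑ i ∈ Finset.Ico s t, c i * innov x ω' i +
        ∑ i ∈ Finset.Ico t u, c i * innov x ω'' i) ^ 2)
        (fun ω'' h => by rw [hlin c ω' ω'' h])]
      set A := ∑ i ∈ Finset.Ico s t, c i * innov x ω' i with hA
      have h5 : ∑ ω'', ν ω' ω'' * (A + ∑ i ∈ Finset.Ico t u, c i * innov x ω'' i) ^ 2 =
          A ^ 2 * ∑ ω'', ν ω' ω'' +
          2 * A * ∑ ω'', ν ω' ω'' * (∑ i ∈ Finset.Ico t u, c i * innov x ω'' i) +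
          ∑ ω'', ν ω' ω'' * (∑ i ∈ Finset.Ico t u, c i * innov x ω'' i) ^ 2 := by
        rw [Finset.mul_sum, Finset.mul_sum, ← Finset.sum_add_distrib,
          ← Finset.sum_add_distrib]
        apply Finset.sum_congr rfl
        intro ω'' _
        ring
      rw [h5, (hνg ω').sum_one, (hνg ω').mean_lin c]
      have h4 := (hνg ω').var c
      linarith
    have h6 : ∑ ω', μ ω' * ((∑ i ∈ Finset.Ico s t, c i * innov x ω' i) ^ 2 +
        α * ∑ i ∈ Finset.Ico t u, c i ^ 2) ≤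
        ∑ ω', μ ω' *
          ∑ ω'', ν ω' ω'' * (∑ i ∈ Finset.Ico s u, c i * innov x ω'' i) ^ 2 :=
      Finset.sum_le_sum fun ω' _ => mul_le_mul_of_nonneg_left (h3 ω') (hμg.nonneg ω')
    refine le_trans ?_ h6
    simp_rw [mul_add, Finset.sum_add_distrib]
    rw [← Finset.sum_mul, hμg.sum_one, hsplit]
    have := hμg.var c
    linarith

theorem sum_biUnion_le_sum_sum {β : Type*} [DecidableEq β] (μ : β → ℝ)
    (hμ : ∀ ω, 0 ≤ μ ω) (N : ℕ) (S : ℕ → Finset β) :
    ∑ ω ∈ (Finset.range N).biUnion S, μ ω ≤ ∑ l ∈ Finset.range N, ∑ ω ∈ S l, μ ω := by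
  induction N with
  | zero => simp
  | succ N ih =>
    rw [Finset.range_add_one, Finset.biUnion_insert, Finset.sum_insert (by simp)]
    have h1 := Finset.sum_union_inter (s₁ := S N) (s₂ := (Finset.range N).biUnion S) (f := μ)
    have h2 : 0 ≤ ∑ ω ∈ S N ∩ (Finset.range N).biUnion S, μ ω :=
      Finset.sum_nonneg fun _ _ => hμ _
    linarith

/-- Weakening of the support property. -/
theorem HasKer.imp {T : ℕ} {x : (ℕ → ℝ) → ℕ → ℝ} {s t : ℕ} {G G' : (Fin T → Bool) → Prop}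
    {κ α : ℝ} (h : HasKer x s t G κ α) (hG : ∀ ω, G ω → G' ω) : HasKer x s t G' κ α := by
  intro ω
  obtain ⟨μ, h1, h2⟩ := h ω
  exact ⟨μ, fun ω' hω' => ⟨(h1 ω' hω').1, hG _ (h1 ω' hω').2⟩, h2⟩

/-- Composition of `M + 1` consecutive windows of equal length. -/
theorem HasKer.iterate {T : ℕ} {x : (ℕ → ℝ) → ℕ → ℝ} (hx : Causal x) (s L : ℕ)
    (G : ℕ → (Fin T → Bool) → Prop) {κ α : ℝ}
    (hG : ∀ j, ∀ ω ω' : Fin T → Bool, Agree (s + (j + 1) * L) ω ω' → G j ω → G j ω') (M : ℕ)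
    (h : ∀ j < M + 1, HasKer x (s + j * L) (s + (j + 1) * L) (G j) κ α) :
    HasKer x s (s + (M + 1) * L) (fun ω => ∀ j < M + 1, G j ω) κ α := by
  induction M with
  | zero =>
    have h0 := h 0 (by omega)
    rw [zero_mul, add_zero] at h0
    refine h0.imp ?_
    intro ω hω j hj
    have : j = 0 := by omega
    rw [this]
    exact hω
  | succ M ih =>
    have h1 := ih (fun j hj => h j (by omega))
    have h2 := h (M + 1) (by omega)
    have h3 := HasKer.comp hx (by omega) (by nlinarith) (G := fun ω => ∀ j < M + 1, G j ω) (by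
      intro ω ω' hA hω j hj
      refine hG j ω ω' (hA.mono ?_) (hω j hj)
      have : (j + 1) * L ≤ (M + 1) * L := Nat.mul_le_mul_right _ (by omega)
      omega) h1 h2
    refine h3.imp ?_
    intro ω hω j hj
    by_cases hj' : j < M + 1
    · exact hω.1 j hj'
    · have : j = M + 1 := by omega
      rw [this]
      exact hω.2

/-- Conditioning a window on all its tests. -/
theorem HasKer.test {T : ℕ} {x : (ℕ → ℝ) → ℕ → ℝ} {s t : ℕ} {G : (Fin T → Bool) → Prop}
    {κ α : ℝ} (h : HasKer x s t G κ α) (hκ : κ ≤ 2) (hα : 1 / 2 ≤ α)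
    (hα1 : α ≤ 1) {δ : ℝ} (hδ : 0 < δ) (hδ1 : δ ≤ 1) (N : ℕ) (c : ℕ → ℕ → ℝ)
    (hc : ∀ l < N, ∑ i ∈ Finset.Ico s t, c l i ^ 2 ≤ 1) {b : ℝ} (hb : 0 ≤ b)
    (hN : N * (2 * Real.exp (-b ^ 2 / 8)) ≤ (δ / 720) ^ 2) :
    HasKer x s t (fun ω => G ω ∧ ∀ l < N, |∑ i ∈ Finset.Ico s t, c l i * innov x ω i| ≤ b)
      (κ + 2 * δ) (α - 2 * δ) := by
  classical
  intro ω
  obtain ⟨μ, hμ, hμg⟩ := h ω
  set Gd : Finset (Fin T → Bool) := Finset.univ.filter
    (fun ω => ∀ l < N, |∑ i ∈ Finset.Ico s t, c l i * innov x ω i| ≤ b) with hGd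
  have hbad : ∑ ω ∈ Gdᶜ, μ ω ≤ (δ / 720) ^ 2 := by
    refine le_trans ?_ hN
    have h1 : Gdᶜ ⊆ (Finset.range N).biUnion (fun l => Finset.univ.filter
        (fun ω : Fin T → Bool => b < |∑ i ∈ Finset.Ico s t, c l i * innov x ω i|)) := by
      intro ω hω
      rw [Finset.mem_compl, hGd, Finset.mem_filter] at hω
      push Not at hω
      obtain ⟨l, hl, hl2⟩ := hω (Finset.mem_univ _)
      rw [Finset.mem_biUnion]
      exact ⟨l, Finset.mem_range.mpr hl, Finset.mem_filter.mpr ⟨Finset.mem_univ _, hl2⟩⟩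
    have h2 : ∑ ω ∈ Gdᶜ, μ ω ≤ ∑ ω ∈ (Finset.range N).biUnion (fun l => Finset.univ.filter
        (fun ω : Fin T → Bool => b < |∑ i ∈ Finset.Ico s t, c l i * innov x ω i|)), μ ω :=
      Finset.sum_le_sum_of_subset_of_nonneg h1 fun ω _ _ => hμg.nonneg ω
    refine h2.trans ?_
    refine (sum_biUnion_le_sum_sum μ hμg.nonneg N _).trans ?_
    have h3 : ∀ l ∈ Finset.range N, ∑ ω ∈ Finset.univ.filter
        (fun ω : Fin T → Bool => b < |∑ i ∈ Finset.Ico s t, c l i * innov x ω i|), μ ω ≤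
        2 * Real.exp (-b ^ 2 / 8) := by
      intro l hl
      exact hμg.tail hκ (c l) (hc l (Finset.mem_range.mp hl)) hb _
        (fun ω hω => (Finset.mem_filter.mp hω).2)
    refine (Finset.sum_le_sum h3).trans ?_
    rw [Finset.sum_const, Finset.card_range, nsmul_eq_mul]
  obtain ⟨μ', hμ', hμg'⟩ := hμg.condition hκ hα hα1 hδ hδ1 Gd hbad
  refine ⟨μ', ?_, hμg'⟩
  intro ω' hω'
  have h1 := hμ' ω' hω'
  have h2 := hμ ω' h1.1
  exact ⟨h2.1, h2.2, (Finset.mem_filter.mp h1.2).2⟩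

end Pool.Agent.H.MP_02f3ba_co
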