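import Mathlib
import Pool.Agent.H.MP_02f3ba_co.Kernel

/-!
# Induction over the levels: one path passing all tests of all levels
-/

namespace Pool.Agent.H.MP_02f3ba_co

open Finset

/-- the tests of window `(k, i)` -/
def Ev {T : ℕ} (x : (ℕ → ℝ) → ℕ → ℝ) (L : ℕ → ℕ) (N : ℕ → ℕ) (b : ℕ → ℝ)
    (c : ℕ → ℕ → ℕ → ℕ → ℝ) (k i : ℕ) (ω : Fin T → Bool) : Prop :=
  ∀ l < N k, |∑ m ∈ Finset.Ico (i * L k) ((i + 1) * L k), c k i l m * innov x ω m| ≤ b k

/-- all the tests of levels `1, ..., k` inside window `(k, i)` -/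
def Gd {T : ℕ} (x : (ℕ → ℝ) → ℕ → ℝ) (L : ℕ → ℕ) (N : ℕ → ℕ) (b : ℕ → ℝ)
    (c : ℕ → ℕ → ℕ → ℕ → ℝ) : ℕ → ℕ → (Fin T → Bool) → Prop
  | 0, _, _ => True
  | k + 1, i, ω => (∀ j < L (k + 1) / L k, Gd x L N b c k (i * (L (k + 1) / L k) + j) ω) ∧
      Ev x L N b c (k + 1) i ω

section

variable {T : ℕ} {x : (ℕ → ℝ) → ℕ → ℝ} {L : ℕ → ℕ} {N : ℕ → ℕ} {b : ℕ → ℝ}
  {c : ℕ → ℕ → ℕ → ℕ → ℝ}

theorem Ev.congr (hx : Causal x) {k i : ℕ} {ω ω' : Fin T → Bool}
    (h : Agree ((i + 1) * L k) ω ω') (hω : Ev x L N b c k i ω) : Ev x L N b c k i ω' := by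
  intro l hl
  have := hω l hl
  have e : ∑ m ∈ Finset.Ico (i * L k) ((i + 1) * L k), c k i l m * innov x ω' m =
      ∑ m ∈ Finset.Ico (i * L k) ((i + 1) * L k), c k i l m * innov x ω m := by
    apply Finset.sum_congr rfl
    intro m hm
    rw [h.innov hx m (Finset.mem_Ico.mp hm).2]
  rw [e]
  exact this

theorem Gd.congr (hx : Causal x) (hpos : ∀ k, 0 < L k) (hdvd : ∀ k, L k ∣ L (k + 1)) (k : ℕ) :
    ∀ (i : ℕ) {ω ω' : Fin T → Bool}, Agree ((i + 1) * L k) ω ω' →
      Gd x L N b c k i ω → Gd x L N b c k i ω' := by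
  induction k with
  | zero => intro i ω ω' _ _; trivial
  | succ k ih =>
    intro i ω ω' hA hω
    obtain ⟨M, hM⟩ := hdvd k
    have hdiv : L (k + 1) / L k = M := by
      rw [hM]
      exact Nat.mul_div_cancel_left _ (hpos k)
    refine ⟨?_, hω.2.congr hx hA⟩
    intro j hj
    refine ih _ (hA.mono ?_) (hω.1 j hj)
    rw [hdiv] at hj ⊢
    rw [hM]
    calc (i * M + j + 1) * L k ≤ ((i + 1) * M) * L k := by
          apply Nat.mul_le_mul_right
          nlinarith
      _ = (i + 1) * (L k * M) := by ring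

theorem hasKer_level (hx : Causal x) (hx2 : ∀ y n, |x y n| ≤ 1 / 2)
    (hL0 : L 0 = 1) (hpos : ∀ k, 0 < L k) (hdvd : ∀ k, L k ∣ L (k + 1))
    (hb : ∀ k, 0 ≤ b k)
    (hN : ∀ k, N (k + 1) * (2 * Real.exp (-b (k + 1) ^ 2 / 8)) ≤ ((1 / 2) ^ k / 16 / 720) ^ 2)
    (hc : ∀ k i, ∀ l < N (k + 1),
      ∑ m ∈ Finset.Ico (i * L (k + 1)) ((i + 1) * L (k + 1)), c (k + 1) i l m ^ 2 ≤ 1) (k : ℕ) :
    ∀ i, (i + 1) * L k ≤ T → HasKer (T := T) x (i * L k) ((i + 1) * L k) (Gd x L N b c k i)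
      (5 / 4 - (1 / 2) ^ k / 4) (1 / 2 + (1 / 2) ^ k / 4) := by
  induction k with
  | zero =>
    intro i hi
    rw [hL0, mul_one] at hi
    rw [hL0, mul_one, mul_one]
    have := hasKer_single hx hx2 i (by omega : i < T)
    norm_num
    exact this
  | succ k ih =>
    intro i hi
    obtain ⟨M, hM⟩ := hdvd k
    have hdiv : L (k + 1) / L k = M := by
      rw [hM]
      exact Nat.mul_div_cancel_left _ (hpos k)
    have hM0 : 0 < M := by
      rcases Nat.eq_zero_or_pos M with h | h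
      · have := hpos (k + 1)
        rw [hM, h] at this
        simp at this
      · exact h
    obtain ⟨M', rfl⟩ : ∃ M', M = M' + 1 := ⟨M - 1, by omega⟩
    have hstep : ∀ j < M' + 1, HasKer (T := T) x (i * L (k + 1) + j * L k)
        (i * L (k + 1) + (j + 1) * L k) (Gd x L N b c k (i * (M' + 1) + j))
        (5 / 4 - (1 / 2) ^ k / 4) (1 / 2 + (1 / 2) ^ k / 4) := by
      intro j hj
      have h1 := ih (i * (M' + 1) + j) (by
        refine le_trans ?_ hi
        rw [hM]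
        calc (i * (M' + 1) + j + 1) * L k ≤ ((i + 1) * (M' + 1)) * L k := by
              apply Nat.mul_le_mul_right
              nlinarith
          _ = (i + 1) * (L k * (M' + 1)) := by ring)
      have e1 : (i * (M' + 1) + j) * L k = i * L (k + 1) + j * L k := by rw [hM]; ring
      have e2 : (i * (M' + 1) + j + 1) * L k = i * L (k + 1) + (j + 1) * L k := by rw [hM]; ring
      rw [e1, e2] at h1
      exact h1
    have h2 := HasKer.iterate hx (i * L (k + 1)) (L k)
      (fun j => Gd x L N b c k (i * (M' + 1) + j)) (by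
        intro j ω ω' hA hω
        refine Gd.congr hx hpos hdvd k _ (hA.mono (le_of_eq ?_)) hω
        rw [hM]
        ring) M' hstep
    have e3 : i * L (k + 1) + (M' + 1) * L k = (i + 1) * L (k + 1) := by rw [hM]; ring
    rw [e3] at h2
    have hp : (0 : ℝ) < (1 / 2) ^ k := by positivity
    have hp1 : (1 / 2 : ℝ) ^ k ≤ 1 := pow_le_one₀ (by norm_num) (by norm_num)
    have h3 := h2.test (δ := (1 / 2) ^ k / 16) (by linarith) (by linarith) (by linarith)
      (by positivity) (by linarith) (N (k + 1)) (c (k + 1) i) (hc k i) (hb (k + 1)) (hN k)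
    have e4 : 5 / 4 - (1 / 2 : ℝ) ^ k / 4 + 2 * ((1 / 2) ^ k / 16) =
        5 / 4 - (1 / 2) ^ (k + 1) / 4 := by rw [pow_succ]; ring
    have e5 : 1 / 2 + (1 / 2 : ℝ) ^ k / 4 - 2 * ((1 / 2) ^ k / 16) =
        1 / 2 + (1 / 2) ^ (k + 1) / 4 := by rw [pow_succ]; ring
    rw [e4, e5] at h3
    refine h3.imp ?_
    intro ω hω
    refine ⟨?_, hω.2⟩
    rw [hdiv]
    exact hω.1

theorem dvd_level (hdvd : ∀ k, L k ∣ L (k + 1)) {k K : ℕ} (h : k ≤ K) : L k ∣ L K := by
  induction K with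
  | zero =>
    have : k = 0 := by omega
    rw [this]
  | succ K ih =>
    rcases Nat.lt_or_ge k (K + 1) with h1 | h1
    · exact (ih (by omega)).trans (hdvd K)
    · have : k = K + 1 := by omega
      rw [this]

theorem Gd.all (hpos : ∀ k, 0 < L k) (hdvd : ∀ k, L k ∣ L (k + 1)) {ω : Fin T → Bool} (K : ℕ) :
    ∀ i₀, Gd x L N b c K i₀ ω → ∀ k ≤ K, 1 ≤ k → ∀ i, i₀ * L K ≤ i * L k →
      (i + 1) * L k ≤ (i₀ + 1) * L K → Ev x L N b c k i ω := by
  induction K with
  | zero =>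
    intro i₀ _ k hk hk1
    omega
  | succ K ih =>
    intro i₀ hG k hk hk1 i hi1 hi2
    obtain ⟨M, hM⟩ := hdvd K
    have hdiv : L (K + 1) / L K = M := by
      rw [hM]
      exact Nat.mul_div_cancel_left _ (hpos K)
    rcases Nat.lt_or_ge k (K + 1) with h1 | h1
    · have hkK : k ≤ K := by omega
      obtain ⟨Q, hQ⟩ := dvd_level hdvd hkK
      have hQ0 : 0 < Q := by
        rcases Nat.eq_zero_or_pos Q with h | h
        · have := hpos K
          rw [hQ, h] at this
          simp at this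
        · exact h
      have hk0 := hpos k
      -- the level `K` window containing it
      set i' := i / Q with hi'
      have hi'1 : i' * Q ≤ i := Nat.div_mul_le_self _ _
      have hi'2 : i < (i' + 1) * Q := by
        have := Nat.lt_div_mul_add (a := i) hQ0
        rw [← hi'] at this
        linarith
      have e1 : i' * L K ≤ i * L k := by
        rw [hQ]
        calc i' * (L k * Q) = (i' * Q) * L k := by ring
          _ ≤ i * L k := Nat.mul_le_mul_right _ hi'1
      have e2 : (i + 1) * L k ≤ (i' + 1) * L K := by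
        rw [hQ]
        calc (i + 1) * L k ≤ ((i' + 1) * Q) * L k := Nat.mul_le_mul_right _ hi'2
          _ = (i' + 1) * (L k * Q) := by ring
      -- `i₀ * M ≤ i' < (i₀ + 1) * M`
      have e3 : i₀ * M ≤ i' := by
        rw [hi', Nat.le_div_iff_mul_le hQ0]
        have : i₀ * (L k * Q * M) ≤ i * L k := by rw [← hQ, ← hM]; exact hi1
        have h3 : (i₀ * M * Q) * L k ≤ i * L k := by
          calc (i₀ * M * Q) * L k = i₀ * (L k * Q * M) := by ring
            _ ≤ _ := this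
        exact Nat.le_of_mul_le_mul_right h3 hk0
      have e4 : i' < (i₀ + 1) * M := by
        rw [hi', Nat.div_lt_iff_lt_mul hQ0]
        have : (i + 1) * L k ≤ (i₀ + 1) * (L k * Q * M) := by rw [← hQ, ← hM]; exact hi2
        have h3 : (i + 1) * L k ≤ ((i₀ + 1) * M * Q) * L k := by
          calc (i + 1) * L k ≤ (i₀ + 1) * (L k * Q * M) := this
            _ = _ := by ring
        have := Nat.le_of_mul_le_mul_right h3 hk0
        omega
      have hG1 := hG.1 (i' - i₀ * M) (by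
        rw [hdiv]
        have : (i₀ + 1) * M = i₀ * M + M := by ring
        omega)
      rw [hdiv, Nat.add_sub_cancel' e3] at hG1
      exact ih i' hG1 k hkK hk1 i e1 e2
    · have : k = K + 1 := by omega
      subst this
      have hp := hpos (K + 1)
      have h2 := Nat.le_of_mul_le_mul_right hi1 hp
      have h3 := Nat.le_of_mul_le_mul_right hi2 hp
      have : i = i₀ := by omega
      rw [this]
      exact hG.2

end

/-- **Hierarchical discrepancy theorem.** There is a sign path all of whose innovations pass all the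
tests of all levels. -/
theorem hierarchical (x : (ℕ → ℝ) → ℕ → ℝ) (hx : Causal x) (hx2 : ∀ y n, |x y n| ≤ 1 / 2)
    (L : ℕ → ℕ) (hL0 : L 0 = 1) (hpos : ∀ k, 0 < L k) (hdvd : ∀ k, L k ∣ L (k + 1))
    (N : ℕ → ℕ) (b : ℕ → ℝ) (hb : ∀ k, 0 ≤ b k)
    (hN : ∀ k, N (k + 1) * (2 * Real.exp (-b (k + 1) ^ 2 / 8)) ≤ ((1 / 2) ^ k / 16 / 720) ^ 2)
    (c : ℕ → ℕ → ℕ → ℕ → ℝ)
    (hc : ∀ k i, ∀ l < N (k + 1),
      ∑ m ∈ Finset.Ico (i * L (k + 1)) ((i + 1) * L (k + 1)), c (k + 1) i l m ^ 2 ≤ 1)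
    (K : ℕ) :
    ∃ y : ℕ → ℝ, (∀ n, y n = 1 ∨ y n = -1) ∧ ∀ k ≤ K, 1 ≤ k → ∀ i, (i + 1) * L k ≤ L K →
      ∀ l < N k,
        |∑ m ∈ Finset.Ico (i * L k) ((i + 1) * L k), c k i l m * (y m - x y m)| ≤ b k := by
  have h := hasKer_level (T := L K) hx hx2 hL0 hpos hdvd hb hN hc K 0 (by simp)
    (fun _ => true)
  obtain ⟨μ, h1, h2⟩ := h
  have h3 : ∃ ω, μ ω ≠ 0 := by
    by_contra hcon
    push Not at hcon
    have := h2.sum_one
    simp [hcon] at this
  obtain ⟨ω, hω⟩ := h3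
  refine ⟨path ω, path_sign ω, ?_⟩
  intro k hk hk1 i hi l hl
  exact (h1 ω hω).2.all hpos hdvd K 0 k hk hk1 i (by simp) (by simpa using hi) l hl

end Pool.Agent.H.MP_02f3ba_co
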