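import Mathlib
import Pool.Agent.H.MP_02f3ba_co.Levels
import Pool.Agent.H.MP_02f3ba_co.Consts
import Pool.Agent.H.MP_02f3ba_co.Conv

/-!
# One stage: a finite sign sequence with small progression sums for all small differences
-/

namespace Pool.Agent.H.MP_02f3ba_co

open Polynomial Finset

attribute [local irreducible] Hw

/-- first level at which the difference `d` is treated -/
def k1 (d : ℕ) : ℕ := 11 * Nat.log 2 d + 44

theorem lt_two_pow_k1 (d : ℕ) : d < 2 ^ (k1 d + 1) := by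
  have h1 : d < 2 ^ (Nat.log 2 d + 1) := Nat.lt_pow_succ_log_self (by norm_num) d
  refine h1.trans_le (Nat.pow_le_pow_right (by norm_num) ?_)
  unfold k1
  omega

theorem k1_deg (d : ℕ) : d * (Ed d) ^ 2 ≤ 2 ^ (k1 d + 1) := by
  have h1 : d ≤ 2 ^ (Nat.log 2 d + 1) := (Nat.lt_pow_succ_log_self (by norm_num) d).le
  have h2 := Ed_le d (Nat.log 2 d) le_rfl
  calc d * (Ed d) ^ 2 ≤ 2 ^ (Nat.log 2 d + 1) * (2 ^ (22 + 5 * Nat.log 2 d)) ^ 2 :=
        Nat.mul_le_mul h1 (Nat.pow_le_pow_left h2 2)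
    _ = 2 ^ (k1 d + 1) := by
      rw [← pow_mul, ← pow_add]
      congr 1
      unfold k1
      ring

/-- the kernels tested at level `k` -/
noncomputable def ker (k d : ℕ) : ℝ[X] :=
  if d = 0 then TK k else if k = k1 d then FF d (k + 1) else if k1 d < k then UK d k else 0

/-- bounds for the squared norms of the kernels -/
noncomputable def nu2 (k d : ℕ) : ℝ :=
  if d = 0 then 16 / (2 ^ 22 * ((k : ℝ) + 1) ^ 4) else if k = k1 d then 2 * Ed d
    else 16 / (2 ^ 22 * ((k : ℝ) + 1) ^ 4) * Ed d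

theorem Ed_pos (d : ℕ) : (0 : ℝ) < Ed d := by
  have := two_le_Ed d
  exact_mod_cast (by omega : 0 < Ed d)

theorem nu2_pos (k d : ℕ) : 0 < nu2 k d := by
  unfold nu2
  have := Ed_pos d
  split_ifs <;> positivity

theorem nsq_ker (k d T : ℕ) : nsq T (ker k d) ≤ nu2 k d := by
  unfold ker nu2
  split_ifs with h0 h1 h2
  · exact nsq_TK k T
  · exact nsq_FF (by omega) _ _
  · refine nsq_UK (by omega) _ _ ((k1_deg d).trans ?_)
    exact Nat.pow_le_pow_right (by norm_num) h2
  · have := Ed_pos d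
    have h : nsq T (0 : ℝ[X]) = 0 := by simp [nsq]
    rw [h]
    positivity

theorem natDegree_ker (k d : ℕ) : (ker k d).natDegree < Hw k := by
  unfold ker
  split_ifs with h0 h1 h2
  · exact natDegree_TK_lt k
  · refine natDegree_FF_lt (by omega) ?_
    rw [h1]
    exact lt_two_pow_k1 d
  · refine natDegree_UK_lt (by omega) ?_
    exact (lt_two_pow_k1 d).trans_le (Nat.pow_le_pow_right (by norm_num) h2)
  · simp [Hw]

/-- window lengths -/
def Lw : ℕ → ℕ
  | 0 => 1
  | k + 1 => Hw k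

theorem Lw_pos (k : ℕ) : 0 < Lw k := by
  rcases k with _ | k
  · simp [Lw]
  · simp [Lw, Hw]

theorem Lw_dvd (k : ℕ) : Lw k ∣ Lw (k + 1) := by
  rcases k with _ | k
  · simp [Lw]
  · simp only [Lw, Hw]
    exact pow_dvd_pow _ (by omega)

/-- number of tests -/
def Nw : ℕ → ℕ
  | 0 => 0
  | k + 1 => 2 * Hw k * 2 ^ (k + 1)

/-- test thresholds -/
noncomputable def bw (k : ℕ) : ℝ := 25 * Real.sqrt k

/-- test vectors -/
noncomputable def cw : ℕ → ℕ → ℕ → ℕ → ℝ
  | 0, _, _, _ => 0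
  | k + 1, i, l, m => if m ≤ i * Hw k + l / 2 ^ (k + 1) then
      (ker k (l % 2 ^ (k + 1))).coeff (i * Hw k + l / 2 ^ (k + 1) - m) /
        Real.sqrt (nu2 k (l % 2 ^ (k + 1))) else 0

theorem exp_neg_nat (n : ℕ) : Real.exp (-(n : ℝ)) ≤ (1 / 2) ^ n := by
  have h1 : Real.exp (-(n : ℝ)) = Real.exp (-1) ^ n := by
    rw [← Real.exp_nat_mul]
    congr 1
    ring
  rw [h1]
  apply pow_le_pow_left₀ (Real.exp_pos _).le
  rw [Real.exp_neg, one_div]
  apply inv_anti₀ (by norm_num)
  have := Real.add_one_le_exp (1 : ℝ)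
  linarith

theorem Nw_bound (k : ℕ) : (Nw (k + 1) : ℝ) * (2 * Real.exp (-bw (k + 1) ^ 2 / 8)) ≤
    ((1 / 2) ^ k / 16 / 720) ^ 2 := by
  have h1 : bw (k + 1) ^ 2 = 625 * ((k : ℝ) + 1) := by
    unfold bw
    rw [mul_pow, Real.sq_sqrt (by positivity)]
    push_cast
    ring
  have h2 : Real.exp (-bw (k + 1) ^ 2 / 8) ≤ (1 / 2) ^ (78 * (k + 1)) := by
    refine le_trans ?_ (exp_neg_nat _)
    apply Real.exp_le_exp.mpr
    rw [h1]
    push_cast
    have : (0 : ℝ) ≤ k := Nat.cast_nonneg k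
    linarith
  have h3 : (Nw (k + 1) : ℝ) = 2 ^ (13 * k + 49) := by
    simp only [Nw, Hw]
    push_cast
    rw [mul_assoc, ← pow_add, ← pow_succ']
    congr 1
    ring
  rw [h3]
  have h4 : (2 : ℝ) ^ (13 * k + 49) * (2 * (1 / 2) ^ (78 * (k + 1))) =
      (1 / 2) ^ (65 * k + 28) := by
    have e1 : (1 / 2 : ℝ) ^ (78 * (k + 1)) = (1 / 2) ^ (65 * k + 28) * (1 / 2) ^ (13 * k + 50) := by
      rw [← pow_add]
      congr 1
      ring
    have e2 : (2 : ℝ) ^ (13 * k + 49) * 2 * (1 / 2) ^ (13 * k + 50) = 1 := by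
      rw [← pow_succ, ← mul_pow]
      norm_num
    rw [e1]
    calc (2 : ℝ) ^ (13 * k + 49) * (2 * ((1 / 2) ^ (65 * k + 28) * (1 / 2) ^ (13 * k + 50)))
        = ((2 : ℝ) ^ (13 * k + 49) * 2 * (1 / 2) ^ (13 * k + 50)) * (1 / 2) ^ (65 * k + 28) := by
          ring
      _ = _ := by rw [e2, one_mul]
  have h5 : (2 : ℝ) ^ (13 * k + 49) * (2 * Real.exp (-bw (k + 1) ^ 2 / 8)) ≤
      (1 / 2) ^ (65 * k + 28) := by
    rw [← h4]
    apply mul_le_mul_of_nonneg_left _ (by positivity)
    linarith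
  refine h5.trans ?_
  have h6 : ((1 / 2 : ℝ) ^ k / 16 / 720) ^ 2 = (1 / 2) ^ (2 * k) * (1 / 132710400) := by
    rw [div_pow, div_pow, ← pow_mul, mul_comm k 2]
    norm_num
    ring
  rw [h6]
  have h7 : (1 / 2 : ℝ) ^ (65 * k + 28) ≤ (1 / 2) ^ (2 * k + 28) :=
    pow_le_pow_of_le_one (by norm_num) (by norm_num) (by omega)
  refine h7.trans ?_
  rw [pow_add]
  apply mul_le_mul_of_nonneg_left _ (by positivity)
  norm_num

theorem cw_norm (k i l : ℕ) : ∑ m ∈ Finset.Ico (i * Lw (k + 1)) ((i + 1) * Lw (k + 1)),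
    cw (k + 1) i l m ^ 2 ≤ 1 := by
  simp only [cw]
  set t := i * Hw k + l / 2 ^ (k + 1) with ht
  set d := l % 2 ^ (k + 1) with hd
  have hnu := nu2_pos k d
  have h1 : ∀ m ∈ Finset.Ico (i * Lw (k + 1)) ((i + 1) * Lw (k + 1)),
      (if m ≤ t then (ker k d).coeff (t - m) / Real.sqrt (nu2 k d) else 0) ^ 2 =
      if m ∈ Finset.range (t + 1) then (ker k d).coeff (t - m) ^ 2 / nu2 k d else 0 := by
    intro m _
    by_cases hm : m ≤ t
    · rw [if_pos hm, if_pos (Finset.mem_range.mpr (by omega)), div_pow, Real.sq_sqrt hnu.le]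
    · rw [if_neg hm, if_neg (by rw [Finset.mem_range]; omega)]
      norm_num
  rw [Finset.sum_congr rfl h1, ← Finset.sum_filter]
  have h2 : ∑ m ∈ (Finset.Ico (i * Lw (k + 1)) ((i + 1) * Lw (k + 1))).filter
      (fun m => m ∈ Finset.range (t + 1)), (ker k d).coeff (t - m) ^ 2 / nu2 k d ≤
      ∑ m ∈ Finset.range (t + 1), (ker k d).coeff (t - m) ^ 2 / nu2 k d := by
    apply Finset.sum_le_sum_of_subset_of_nonneg
    · intro m hm
      exact (Finset.mem_filter.mp hm).2
    · intro m _ _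
      positivity
  refine h2.trans ?_
  rw [← Finset.sum_div, div_le_one hnu]
  refine le_trans (le_of_eq ?_) (nsq_ker k d (t + 1))
  unfold nsq
  rw [← Finset.sum_range_reflect]
  apply Finset.sum_congr rfl
  intro m hm
  rw [Finset.mem_range] at hm
  congr 2
  omega

theorem sum_three_halves (K : ℕ) :
    ∑ k ∈ Finset.range K, Real.sqrt ((k : ℝ) + 1) / ((k : ℝ) + 1) ^ 2 ≤ 3 := by
  have key : ∀ K : ℕ, ∑ k ∈ Finset.range (K + 1), Real.sqrt ((k : ℝ) + 1) / ((k : ℝ) + 1) ^ 2 ≤
      3 - 2 / Real.sqrt ((K : ℝ) + 1) := by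
    intro K
    induction K with
    | zero => norm_num
    | succ K ih =>
      rw [Finset.sum_range_succ]
      have hK : (0 : ℝ) ≤ K := Nat.cast_nonneg K
      push_cast
      set u := Real.sqrt ((K : ℝ) + 1) with hu
      set v := Real.sqrt ((K : ℝ) + 1 + 1) with hv
      have hu2 : u ^ 2 = (K : ℝ) + 1 := Real.sq_sqrt (by positivity)
      have hv2 : v ^ 2 = (K : ℝ) + 1 + 1 := Real.sq_sqrt (by positivity)
      have hu0 : 0 < u := Real.sqrt_pos.mpr (by positivity)
      have hv0 : 0 < v := Real.sqrt_pos.mpr (by positivity)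
      have huv : u ≤ v := Real.sqrt_le_sqrt (by linarith)
      have h1 : v / ((K : ℝ) + 1 + 1) ^ 2 ≤ 2 / u - 2 / v := by
        rw [← hv2]
        have e1 : 2 / u - 2 / v = 2 * (v - u) / (u * v) := by
          field_simp
        have e2 : (v - u) * (v + u) = 1 := by nlinarith
        have e3 : v - u = 1 / (v + u) := by
          field_simp
          linarith
        rw [e1, e3]
        have e4 : v / (v ^ 2) ^ 2 = 1 / v ^ 3 := by
          field_simp
        rw [e4]
        have e5 : 2 * (1 / (v + u)) / (u * v) = 1 / ((v + u) / 2 * (u * v)) := by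
          field_simp
        rw [e5]
        apply one_div_le_one_div_of_le (by positivity)
        have e6 : (v + u) / 2 ≤ v := by linarith
        have e7 : u * v ≤ v * v := mul_le_mul_of_nonneg_right huv hv0.le
        calc (v + u) / 2 * (u * v) ≤ v * (v * v) := mul_le_mul e6 e7 (by positivity) hv0.le
          _ = v ^ 3 := by ring
      linarith
  rcases K with _ | K
  · simp
  · have h1 := key K
    have h2 : 0 ≤ 2 / Real.sqrt ((K : ℝ) + 1) := by positivity
    linarith

theorem coeff_TK_zero (k : ℕ) : (TK k).coeff 0 = 0 := by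
  unfold TK
  rw [mul_coeff_zero, coeff_PB_sub_one two_le_Ed k 0 (by positivity), mul_zero]

/-- `sqrt (nu2)` for the increments -/
theorem sqrt_nu (k : ℕ) : Real.sqrt (16 / (2 ^ 22 * ((k : ℝ) + 1) ^ 4)) =
    1 / (512 * ((k : ℝ) + 1) ^ 2) := by
  rw [Real.sqrt_eq_iff_mul_self_eq (by positivity) (by positivity)]
  field_simp
  norm_num

/-- One stage. -/
theorem stage (K : ℕ) : ∃ y : ℕ → ℝ, (∀ n, y n = 1 ∨ y n = -1) ∧
    ∀ d, 1 ≤ d → k1 d ≤ K → ∀ a N, a + N * d < Hw K →
      |∑ i ∈ Finset.range N, y (a + i * d)| ≤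
        2 * (526 * (Real.sqrt (Ed d) * Real.sqrt ((Nat.log 2 d : ℝ) + 1))) := by
  set T : ℝ[X] := AA (K + 1) - 1 with hT
  obtain ⟨y, hy, htest⟩ := hierarchical (pred T) (fun y y' n h => pred_causal T y y' n h)
    (fun y n => abs_pred_le T y n) Lw rfl Lw_pos Lw_dvd Nw bw
    (fun k => by unfold bw; positivity) Nw_bound cw (fun k i l _ => cw_norm k i l) (K + 1)
  refine ⟨y, hy, ?_⟩
  set e : ℕ → ℝ := fun m => y m - pred T y m with he
  -- every kernel of every level gives a small convolution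
  have hker : ∀ k ≤ K, ∀ d < 2 ^ (k + 1), ∀ t < Hw K,
      |conv (ker k d) e t| ≤ 2 * (25 * Real.sqrt ((k : ℝ) + 1) * Real.sqrt (nu2 k d)) := by
    intro k hk d hd t ht
    have hdvd : Hw k ∣ Hw K := by
      unfold Hw
      exact pow_dvd_pow _ (by omega)
    obtain ⟨R, hR⟩ := hdvd
    have ht2 : t < R * Hw k := by
      rw [mul_comm, ← hR]
      exact ht
    have hB0 : 0 ≤ 25 * Real.sqrt ((k : ℝ) + 1) * Real.sqrt (nu2 k d) := by positivity
    refine conv_bound (ker k d) e (Hw k) R t (natDegree_ker k d) ht2 hB0 ?_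
    intro i hi t' ht'
    have hl : t' * 2 ^ (k + 1) + d < Nw (k + 1) := by
      simp only [Nw]
      calc t' * 2 ^ (k + 1) + d < t' * 2 ^ (k + 1) + 2 ^ (k + 1) := by omega
        _ = (t' + 1) * 2 ^ (k + 1) := by ring
        _ ≤ 2 * Hw k * 2 ^ (k + 1) := Nat.mul_le_mul_right _ (by omega)
    have hdiv : (t' * 2 ^ (k + 1) + d) / 2 ^ (k + 1) = t' := by
      rw [mul_comm, Nat.mul_add_div (by positivity), Nat.div_eq_of_lt hd, add_zero]
    have hmod : (t' * 2 ^ (k + 1) + d) % 2 ^ (k + 1) = d := by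
      rw [mul_comm, Nat.mul_add_mod, Nat.mod_eq_of_lt hd]
    have h1 := htest (k + 1) (by omega) (by omega) i (by
      simp only [Lw]
      rw [hR, mul_comm (Hw k) R]
      exact Nat.mul_le_mul_right _ hi) _ hl
    simp only [cw, hdiv, hmod, Lw] at h1
    have h2 : ∑ m ∈ Finset.Ico (i * Hw k) ((i + 1) * Hw k),
        (if m ≤ i * Hw k + t' then (ker k d).coeff (i * Hw k + t' - m) * e m else 0) =
        Real.sqrt (nu2 k d) * ∑ m ∈ Finset.Ico (i * Hw k) ((i + 1) * Hw k),
          (if m ≤ i * Hw k + t' then (ker k d).coeff (i * Hw k + t' - m) /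
            Real.sqrt (nu2 k d) else 0) * (y m - pred T y m) := by
      rw [Finset.mul_sum]
      apply Finset.sum_congr rfl
      intro m _
      have hs : Real.sqrt (nu2 k d) ≠ 0 := (Real.sqrt_pos.mpr (nu2_pos k d)).ne'
      split_ifs
      · field_simp
        rfl
      · ring
    rw [h2, abs_mul, abs_of_nonneg (Real.sqrt_nonneg _), mul_comm]
    refine mul_le_mul_of_nonneg_right (h1.trans (le_of_eq ?_)) (Real.sqrt_nonneg _)
    unfold bw
    push_cast
    rfl
  -- no clipping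
  have hT0 : T.coeff 0 = 0 := by
    rw [hT, ← sum_TK, finsetSum_coeff]
    exact Finset.sum_eq_zero fun k _ => coeff_TK_zero k
  have hpred : ∀ n, pred T y n = clip (conv T e n) := by
    intro n
    rw [pred_eq]
    unfold conv
    rw [Finset.sum_range_succ, Nat.sub_self, hT0, zero_mul, add_zero]
  have hconvT : ∀ n < Hw K, |conv T e n| ≤ 1 / 2 := by
    intro n hn
    rw [hT, ← sum_TK, conv_sum]
    refine (Finset.abs_sum_le_sum_abs _ _).trans ?_
    have h1 : ∀ k ∈ Finset.range (K + 1), |conv (TK k) e n| ≤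
        50 / 512 * (Real.sqrt ((k : ℝ) + 1) / ((k : ℝ) + 1) ^ 2) := by
      intro k hk
      rw [Finset.mem_range] at hk
      have h2 := hker k (by omega) 0 (by positivity) n hn
      have e1 : ker k 0 = TK k := by simp [ker]
      have e2 : nu2 k 0 = 16 / (2 ^ 22 * ((k : ℝ) + 1) ^ 4) := by simp [nu2]
      rw [e1, e2, sqrt_nu] at h2
      refine h2.trans (le_of_eq ?_)
      field_simp
      norm_num
    refine (Finset.sum_le_sum h1).trans ?_
    rw [← Finset.mul_sum]
    have h3 := sum_three_halves (K + 1)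
    calc (50 / 512 : ℝ) * ∑ k ∈ Finset.range (K + 1), Real.sqrt ((k : ℝ) + 1) / ((k : ℝ) + 1) ^ 2
        ≤ 50 / 512 * 3 := mul_le_mul_of_nonneg_left h3 (by norm_num)
      _ ≤ 1 / 2 := by norm_num
  have hyA : ∀ n < Hw K, y n = conv (AA (K + 1)) e n := by
    intro n hn
    have h1 : AA (K + 1) = 1 + T := by rw [hT]; ring
    rw [h1, conv_add, conv_one]
    have h2 := hpred n
    rw [clip_eq (hconvT n hn)] at h2
    simp only [he]
    rw [← h2]
    ring
  -- the integrated process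
  intro d hd hdK a N haN
  set j := Nat.log 2 d with hj
  set S : ℕ → ℝ := fun t => conv (FF d (K + 1)) e t with hS
  have hk1K : k1 d + 1 ≤ K + 1 := by omega
  have hd2 : d < 2 ^ (K + 1) :=
    (lt_two_pow_k1 d).trans_le (Nat.pow_le_pow_right (by norm_num) hk1K)
  have hE := Ed_pos d
  have hd0 : d ≠ 0 := by omega
  apply ap_bound y S d (Hw K) _ _ (by positivity) a N haN
  · intro t ht
    rw [hyA t ht, ← FF_mul hd hd2, conv_shift]
  · intro t ht
    simp only [hS]
    rw [FF_eq (lt_two_pow_k1 d) (K + 1) hk1K, conv_add, conv_sum]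
    refine (abs_add_le _ _).trans ?_
    have h1 : |conv (FF d (k1 d + 1)) e t| ≤
        525 * (Real.sqrt (Ed d) * Real.sqrt ((j : ℝ) + 1)) := by
      have h2 := hker (k1 d) (by omega) d (lt_two_pow_k1 d) t ht
      have e1 : ker (k1 d) d = FF d (k1 d + 1) := by simp [ker, hd0]
      have e2 : nu2 (k1 d) d = 2 * Ed d := by simp [nu2, hd0]
      rw [e1, e2] at h2
      refine h2.trans ?_
      have h3 : Real.sqrt ((k1 d : ℝ) + 1) ≤ 7 * Real.sqrt ((j : ℝ) + 1) := by
        rw [show (7 : ℝ) = Real.sqrt 49 by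
          rw [show (49 : ℝ) = 7 ^ 2 by norm_num]; exact (Real.sqrt_sq (by norm_num)).symm,
          ← Real.sqrt_mul (by norm_num)]
        apply Real.sqrt_le_sqrt
        unfold k1
        push_cast
        rw [← hj]
        have : (0 : ℝ) ≤ j := Nat.cast_nonneg j
        linarith
      have h4 : Real.sqrt (2 * Ed d) ≤ 3 / 2 * Real.sqrt (Ed d) := by
        rw [show (3 / 2 : ℝ) = Real.sqrt (9 / 4) by
          rw [show (9 / 4 : ℝ) = (3 / 2) ^ 2 by norm_num]; exact (Real.sqrt_sq (by norm_num)).symm,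
          ← Real.sqrt_mul (by norm_num)]
        apply Real.sqrt_le_sqrt
        linarith
      calc 2 * (25 * Real.sqrt ((k1 d : ℝ) + 1) * Real.sqrt (2 * Ed d))
          ≤ 2 * (25 * (7 * Real.sqrt ((j : ℝ) + 1)) * (3 / 2 * Real.sqrt (Ed d))) := by
            gcongr
        _ = 525 * (Real.sqrt (Ed d) * Real.sqrt ((j : ℝ) + 1)) := by ring
    have h2 : |∑ k ∈ Finset.Ico (k1 d + 1) (K + 1), conv (UK d k) e t| ≤
        Real.sqrt (Ed d) * Real.sqrt ((j : ℝ) + 1) := by
      refine (Finset.abs_sum_le_sum_abs _ _).trans ?_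
      have h3 : ∀ k ∈ Finset.Ico (k1 d + 1) (K + 1), |conv (UK d k) e t| ≤
          50 / 512 * Real.sqrt (Ed d) * (Real.sqrt ((k : ℝ) + 1) / ((k : ℝ) + 1) ^ 2) := by
        intro k hk
        rw [Finset.mem_Ico] at hk
        have hdk : d < 2 ^ (k + 1) := (lt_two_pow_k1 d).trans_le
          (Nat.pow_le_pow_right (by norm_num) (by omega))
        have h4 := hker k (by omega) d hdk t ht
        have e1 : ker k d = UK d k := by
          unfold ker
          rw [if_neg hd0, if_neg (by omega), if_pos (by omega)]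
        have e2 : nu2 k d = 16 / (2 ^ 22 * ((k : ℝ) + 1) ^ 4) * Ed d := by
          unfold nu2
          rw [if_neg hd0, if_neg (by omega)]
        rw [e1, e2, Real.sqrt_mul (by positivity), sqrt_nu] at h4
        refine h4.trans (le_of_eq ?_)
        field_simp
        norm_num
      refine (Finset.sum_le_sum h3).trans ?_
      rw [← Finset.mul_sum]
      have h5 : ∑ k ∈ Finset.Ico (k1 d + 1) (K + 1), Real.sqrt ((k : ℝ) + 1) / ((k : ℝ) + 1) ^ 2 ≤
          3 := by
        refine le_trans ?_ (sum_three_halves (K + 1))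
        apply Finset.sum_le_sum_of_subset_of_nonneg
        · rw [Finset.range_eq_Ico]
          exact Finset.Ico_subset_Ico_left (Nat.zero_le _)
        · intro k _ _
          positivity
      have h6 : (1 : ℝ) ≤ Real.sqrt ((j : ℝ) + 1) := by
        rw [← Real.sqrt_one]
        apply Real.sqrt_le_sqrt
        have : (0 : ℝ) ≤ j := Nat.cast_nonneg j
        rw [Real.sqrt_one]
        linarith
      calc 50 / 512 * Real.sqrt (Ed d) *
            ∑ k ∈ Finset.Ico (k1 d + 1) (K + 1), Real.sqrt ((k : ℝ) + 1) / ((k : ℝ) + 1) ^ 2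
          ≤ 50 / 512 * Real.sqrt (Ed d) * 3 := mul_le_mul_of_nonneg_left h5 (by positivity)
        _ ≤ Real.sqrt (Ed d) * 1 := by nlinarith [Real.sqrt_nonneg (Ed d : ℝ)]
        _ ≤ Real.sqrt (Ed d) * Real.sqrt ((j : ℝ) + 1) :=
          mul_le_mul_of_nonneg_left h6 (Real.sqrt_nonneg _)
    linarith

end Pool.Agent.H.MP_02f3ba_co
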