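import Mathlib
import Pool.Agent.H.MP_02f3ba_co.Stage

/-!
# The infinite sequence
-/

namespace Pool.Agent.H.MP_02f3ba_co

open Finset Filter

theorem exists_seq : ∃ f : ℕ → ℤ, (∀ n, f n = 1 ∨ f n = -1) ∧ ∀ a d N : ℕ, 1 ≤ d →
    |((∑ i ∈ Finset.range N, f (a + i * d) : ℤ) : ℝ)| ≤
      1052 * (Real.sqrt (Ed d) * Real.sqrt ((Nat.log 2 d : ℝ) + 1)) := by
  classical
  choose y hy hb using stage
  set U : Ultrafilter ℕ := hyperfilter ℕ with hU
  set f : ℕ → ℤ := fun n => if ∀ᶠ K in (U : Filter ℕ), y K n = 1 then 1 else -1 with hf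
  have hf1 : ∀ n, ∀ᶠ K in (U : Filter ℕ), y K n = (f n : ℝ) := by
    intro n
    by_cases h : ∀ᶠ K in (U : Filter ℕ), y K n = 1
    · simp only [hf, if_pos h]
      simpa using h
    · simp only [hf, if_neg h]
      rw [← Ultrafilter.eventually_not] at h
      filter_upwards [h] with K hK
      rcases hy K n with h1 | h1
      · exact absurd h1 hK
      · rw [h1]
        norm_num
  refine ⟨f, ?_, ?_⟩
  · intro n
    simp only [hf]
    split_ifs <;> simp
  · intro a d N hd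
    have h1 : ∀ᶠ K in (U : Filter ℕ), ∀ i ∈ Finset.range N, y K (a + i * d) = (f (a + i * d) : ℝ) := by
      rw [Filter.eventually_all_finset]
      intro i _
      exact hf1 _
    have h2 : ∀ᶠ K in (U : Filter ℕ), k1 d + (a + N * d) ≤ K := by
      have : ∀ᶠ K in (atTop : Filter ℕ), k1 d + (a + N * d) ≤ K := eventually_ge_atTop _
      rw [← Nat.cofinite_eq_atTop] at this
      exact hyperfilter_le_cofinite this
    obtain ⟨K, hK1, hK2⟩ := (h1.and h2).exists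
    have h3 := hb K d hd (by omega) a N (by
      have h4 : K < 2 ^ K := Nat.lt_two_pow_self
      have h5 : 2 ^ K ≤ Hw K := by
        unfold Hw
        exact Nat.pow_le_pow_right (by norm_num) (by omega)
      omega)
    push_cast
    rw [Finset.sum_congr rfl hK1] at h3
    refine h3.trans (le_of_eq ?_)
    ring

theorem final_bound (d : ℕ) (hd : 1 ≤ d) :
    Real.sqrt (Ed d) * Real.sqrt ((Nat.log 2 d : ℝ) + 1) ≤
      2048 * (Real.sqrt d * (2 * (1 + Real.log d)) ^ (5 / 2 : ℝ)) := by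
  set j := Nat.log 2 d with hj
  have hj1 : (2 : ℝ) ^ j ≤ d := by exact_mod_cast Nat.pow_log_le_self 2 (by omega : d ≠ 0)
  have hd1 : (1 : ℝ) ≤ d := by exact_mod_cast hd
  have hlog : 0 ≤ Real.log d := Real.log_nonneg hd1
  have hj0 : (0 : ℝ) ≤ j := Nat.cast_nonneg j
  have hj2 : (j : ℝ) + 1 ≤ 2 * (1 + Real.log d) := by
    have h1 : (j : ℝ) * Real.log 2 ≤ Real.log d := by
      rw [← Real.log_pow]
      exact Real.log_le_log (by positivity) hj1
    have h2 := Real.log_two_gt_d9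
    nlinarith
  have hE : (Ed d : ℝ) = 2048 ^ 2 * (2 ^ j * ((j : ℝ) + 1) ^ 4) := by
    unfold Ed
    rw [← hj]
    push_cast
    ring
  rw [hE, Real.sqrt_mul (by positivity), Real.sqrt_sq (by norm_num),
    Real.sqrt_mul (by positivity)]
  have h1 : Real.sqrt ((2 : ℝ) ^ j) ≤ Real.sqrt d := Real.sqrt_le_sqrt hj1
  have h2 : Real.sqrt (((j : ℝ) + 1) ^ 4) * Real.sqrt ((j : ℝ) + 1) =
      ((j : ℝ) + 1) ^ (5 / 2 : ℝ) := by
    rw [Real.sqrt_eq_rpow, Real.sqrt_eq_rpow, ← Real.rpow_natCast, ← Real.rpow_mul (by positivity),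
      ← Real.rpow_add (by positivity)]
    norm_num
  have h3 : ((j : ℝ) + 1) ^ (5 / 2 : ℝ) ≤ (2 * (1 + Real.log d)) ^ (5 / 2 : ℝ) :=
    Real.rpow_le_rpow (by positivity) hj2 (by norm_num)
  calc 2048 * (Real.sqrt (2 ^ j) * Real.sqrt (((j : ℝ) + 1) ^ 4)) * Real.sqrt ((j : ℝ) + 1)
      = 2048 * (Real.sqrt (2 ^ j) *
        (Real.sqrt (((j : ℝ) + 1) ^ 4) * Real.sqrt ((j : ℝ) + 1))) := by ring
    _ = 2048 * (Real.sqrt (2 ^ j) * ((j : ℝ) + 1) ^ (5 / 2 : ℝ)) := by rw [h2]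
    _ ≤ 2048 * (Real.sqrt d * (2 * (1 + Real.log d)) ^ (5 / 2 : ℝ)) := by gcongr

end Pool.Agent.H.MP_02f3ba_co
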