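import Mathlib

/-!
Roth's lower bound for a two-valued sequence: on every scale `D` some progression of difference
`d ≤ D` has a sum of size at least `c √D`.
-/

namespace MP02f3ba

open Finset Polynomial

theorem roth_geom {M : ℕ} {ω : ℂ} (hω : IsPrimitiveRoot ω M) {a b : ℕ} (ha : a < M) (hb : b < M) :
    ∑ k ∈ range M, (ω ^ a * (ω⁻¹) ^ b) ^ k = if a = b then (M : ℂ) else 0 := by
  have hω0 : ω ≠ 0 := hω.ne_zero (by omega)
  split_ifs with h
  · subst h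
    rw [← mul_pow, mul_inv_cancel₀ hω0]
    simp
  · have hne : ω ^ a * (ω⁻¹) ^ b ≠ 1 := by
      intro h1
      apply h
      apply hω.pow_inj ha hb
      rw [inv_pow] at h1
      exact (mul_inv_eq_one₀ (pow_ne_zero b hω0)).mp h1
    rw [geom_sum_eq hne]
    have h2 : (ω ^ a * (ω⁻¹) ^ b) ^ M = 1 := by
      rw [mul_pow, ← pow_mul, ← pow_mul, mul_comm a M, mul_comm b M, pow_mul, pow_mul, inv_pow,
        hω.pow_eq_one]
      simp
    rw [h2, sub_self, zero_div]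

theorem roth_parseval {M : ℕ} {ω : ℂ} (hω : IsPrimitiveRoot ω M) (hn : ‖ω‖ = 1) (R : ℂ[X])
    (hR : R.natDegree < M) :
    ∑ k ∈ range M, ‖R.eval (ω ^ k)‖ ^ 2 = M * ∑ a ∈ range M, ‖R.coeff a‖ ^ 2 := by
  have hconj : (starRingEnd ℂ) ω = ω⁻¹ := by
    rw [Complex.inv_def, Complex.normSq_eq_norm_sq, hn]
    simp
  have h1 : ∀ k, R.eval (ω ^ k) = ∑ a ∈ range M, R.coeff a * (ω ^ a) ^ k := by
    intro k
    rw [Polynomial.eval_eq_sum_range' hR]
    apply Finset.sum_congr rfl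
    intro a _
    rw [← pow_mul, ← pow_mul, mul_comm k a]
  have h2 : ∀ k, (starRingEnd ℂ) (R.eval (ω ^ k)) =
      ∑ b ∈ range M, (starRingEnd ℂ) (R.coeff b) * ((ω⁻¹) ^ b) ^ k := by
    intro k
    rw [h1, map_sum]
    apply Finset.sum_congr rfl
    intro b _
    rw [map_mul, map_pow, map_pow, hconj]
  have h3 : ((∑ k ∈ range M, ‖R.eval (ω ^ k)‖ ^ 2 : ℝ) : ℂ) =
      ((M * ∑ a ∈ range M, ‖R.coeff a‖ ^ 2 : ℝ) : ℂ) := by
    push_cast
    have h4 : ∀ z : ℂ, (‖z‖ : ℂ) ^ 2 = z * (starRingEnd ℂ) z := fun z => (Complex.mul_conj' z).symm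
    calc ∑ k ∈ range M, (‖R.eval (ω ^ k)‖ : ℂ) ^ 2
        = ∑ k ∈ range M, ∑ a ∈ range M, ∑ b ∈ range M,
          (R.coeff a * (starRingEnd ℂ) (R.coeff b)) * (ω ^ a * (ω⁻¹) ^ b) ^ k := by
          apply Finset.sum_congr rfl
          intro k _
          rw [h4, h2, h1, Finset.sum_mul_sum]
          apply Finset.sum_congr rfl
          intro a _
          apply Finset.sum_congr rfl
          intro b _
          rw [mul_pow]
          ring
      _ = ∑ a ∈ range M, ∑ b ∈ range M, (R.coeff a * (starRingEnd ℂ) (R.coeff b)) *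
          ∑ k ∈ range M, (ω ^ a * (ω⁻¹) ^ b) ^ k := by
          rw [Finset.sum_comm]
          apply Finset.sum_congr rfl
          intro a _
          rw [Finset.sum_comm]
          apply Finset.sum_congr rfl
          intro b _
          rw [Finset.mul_sum]
      _ = ∑ a ∈ range M, (M : ℂ) * (‖R.coeff a‖ : ℂ) ^ 2 := by
          apply Finset.sum_congr rfl
          intro a ha
          rw [Finset.sum_eq_single a]
          · rw [roth_geom hω (Finset.mem_range.mp ha) (Finset.mem_range.mp ha), if_pos rfl, h4]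
            ring
          · intro b hb hba
            rw [roth_geom hω (Finset.mem_range.mp ha) (Finset.mem_range.mp hb),
              if_neg (Ne.symm hba), mul_zero]
          · intro h
            exact absurd ha h
      _ = (M : ℂ) * ∑ a ∈ range M, (‖R.coeff a‖ : ℂ) ^ 2 := by
          rw [Finset.mul_sum]
  exact_mod_cast h3

/-- the sums over progressions of difference `d` as coefficients -/
theorem roth_coeff (f : ℕ → ℤ) (N ℓ d a : ℕ) (hd : 1 ≤ d) :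
    ∃ a' n : ℕ, 1 ≤ a' ∧
      ((∑ j ∈ range ℓ, (X : ℂ[X]) ^ (j * d)) *
        ∑ x ∈ Icc 1 N, C ((f x : ℤ) : ℂ) * X ^ x).coeff a =
        ((∑ j ∈ range n, f (a' + j * d) : ℤ) : ℂ) := by
  have h1 : ((∑ j ∈ range ℓ, (X : ℂ[X]) ^ (j * d)) *
        ∑ x ∈ Icc 1 N, C ((f x : ℤ) : ℂ) * X ^ x).coeff a =
        ∑ j ∈ range ℓ, if j * d ≤ a then (if a - j * d ∈ Icc 1 N then ((f (a - j * d) : ℤ) : ℂ)
          else 0) else 0 := by
    rw [Finset.sum_mul, Polynomial.finsetSum_coeff]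
    apply Finset.sum_congr rfl
    intro j _
    rw [Polynomial.coeff_X_pow_mul']
    congr 1
    rw [Polynomial.finsetSum_coeff]
    simp only [Polynomial.coeff_C_mul, Polynomial.coeff_X_pow, mul_ite, mul_one, mul_zero]
    rw [Finset.sum_ite_eq]
  rw [h1]
  rcases Nat.eq_zero_or_pos a with ha | ha
  · refine ⟨1, 0, le_rfl, ?_⟩
    subst ha
    rw [Finset.range_zero, Finset.sum_empty, Int.cast_zero]
    apply Finset.sum_eq_zero
    intro j _
    simp
  · -- the range of admissible j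
    set j1 := (a - N + d - 1) / d with hj1
    set j2 := min ℓ ((a - 1) / d + 1) with hj2
    have hset : (range ℓ).filter (fun j => j * d ≤ a ∧ a - j * d ∈ Icc 1 N) = Ico j1 j2 := by
      ext j
      rw [Finset.mem_filter, Finset.mem_range, Finset.mem_Icc, Finset.mem_Ico, hj1, hj2]
      have e1 : (a - N + d - 1) / d ≤ j ↔ a ≤ N + j * d := by
        rw [← Nat.lt_succ_iff, Nat.div_lt_iff_lt_mul (by omega)]
        have : j.succ * d = j * d + d := Nat.succ_mul j d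
        rw [this]
        omega
      have e2 : j < (a - 1) / d + 1 ↔ j * d < a := by
        rw [Nat.lt_succ_iff, Nat.le_div_iff_mul_le (by omega)]
        omega
      rw [e1, lt_min_iff, e2]
      omega
    have h2 : (∑ j ∈ range ℓ, if j * d ≤ a then (if a - j * d ∈ Icc 1 N then
        ((f (a - j * d) : ℤ) : ℂ) else 0) else 0) = ∑ j ∈ Ico j1 j2, ((f (a - j * d) : ℤ) : ℂ) := by
      rw [← hset, Finset.sum_filter]
      apply Finset.sum_congr rfl
      intro j _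
      by_cases h3 : j * d ≤ a <;> by_cases h4 : a - j * d ∈ Icc 1 N <;> simp [h3, h4]
    rw [h2]
    have hj2' : j2 ≤ (a - 1) / d + 1 := Nat.min_le_right _ _
    clear_value j1 j2
    clear hset h2
    rcases Nat.lt_or_ge j1 j2 with hlt | hge
    · have h3 : (j2 - 1) * d < a := by
        have h4 : j2 - 1 ≤ (a - 1) / d := Nat.sub_le_of_le_add hj2'
        have h5 := (Nat.le_div_iff_mul_le (by omega : 0 < d)).mp h4
        omega
      refine ⟨a - (j2 - 1) * d, j2 - j1, by omega, ?_⟩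
      rw [Finset.sum_Ico_eq_sum_range, ← Finset.sum_range_reflect]
      push_cast
      apply Finset.sum_congr rfl
      intro i hi
      rw [Finset.mem_range] at hi
      have h6 : j1 + (j2 - j1 - 1 - i) = (j2 - 1) - i := by omega
      have h7 : ((j2 - 1) - i) * d = (j2 - 1) * d - i * d := Nat.sub_mul _ _ _
      have h8 : i * d ≤ (j2 - 1) * d := Nat.mul_le_mul_right d (by omega)
      rw [h6, h7]
      have h9 : a - ((j2 - 1) * d - i * d) = a - (j2 - 1) * d + i * d := by omega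
      rw [h9]
    · refine ⟨1, 0, le_rfl, ?_⟩
      rw [Finset.Ico_eq_empty (by omega)]
      simp

/-- Dirichlet: one of the kernels of difference `d ≤ D` is large -/
theorem roth_kernel (D M k : ℕ) (hD : 1 ≤ D) (hM : 0 < M) :
    ∃ d ∈ Icc 1 D, ((D / 6 + 1 : ℕ) : ℝ) / 2 ≤
      ‖(∑ j ∈ range (D / 6 + 1), (X : ℂ[X]) ^ (j * d)).eval
        (Complex.exp (2 * Real.pi * Complex.I / M) ^ k)‖ := by
  obtain ⟨p, d, hd0, hdD, hle⟩ := Real.exists_int_int_abs_mul_sub_le ((k : ℝ) / M)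
    (n := D) (by omega)
  lift d to ℕ using hd0.le
  refine ⟨d, Finset.mem_Icc.mpr ⟨by omega, by exact_mod_cast hdD⟩, ?_⟩
  set θ : ℝ := ((d : ℤ) : ℝ) * ((k : ℝ) / M) - p with hθ
  refine le_trans ?_ (Complex.re_le_norm _)
  rw [Polynomial.eval_finsetSum, Complex.re_sum]
  have hterm : ∀ j ∈ range (D / 6 + 1), (1 : ℝ) / 2 ≤ (((X : ℂ[X]) ^ (j * d)).eval
      (Complex.exp (2 * Real.pi * Complex.I / M) ^ k)).re := by
    intro j hj
    rw [Finset.mem_range] at hj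
    have hM' : (M : ℂ) ≠ 0 := by exact_mod_cast hM.ne'
    have hM'' : (M : ℝ) ≠ 0 := by exact_mod_cast hM.ne'
    have h1 : ((X : ℂ[X]) ^ (j * d)).eval (Complex.exp (2 * Real.pi * Complex.I / M) ^ k) =
        Complex.exp (((2 * Real.pi * (j * θ) + ((j : ℤ) * p : ℤ) * (2 * Real.pi) : ℝ) : ℂ) *
          Complex.I) := by
      rw [Polynomial.eval_pow, Polynomial.eval_X, ← pow_mul, ← Complex.exp_nat_mul]
      congr 1
      rw [hθ]
      push_cast
      field_simp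
      ring
    rw [h1, Complex.exp_ofReal_mul_I_re, Real.cos_add_int_mul_two_pi, ← Real.cos_abs,
      ← Real.cos_pi_div_three]
    have hj' : (j : ℝ) ≤ D / 6 := by
      have h2 : j ≤ D / 6 := by omega
      have h3 : ((j : ℕ) : ℝ) ≤ ((D / 6 : ℕ) : ℝ) := by exact_mod_cast h2
      exact h3.trans Nat.cast_div_le
    have hD' : (0 : ℝ) < (D : ℝ) + 1 := by positivity
    have hjθ : |2 * Real.pi * (j * θ)| ≤ Real.pi / 3 := by
      rw [abs_mul (2 * Real.pi) ((j : ℝ) * θ), abs_mul (j : ℝ) θ, abs_of_pos (by positivity : (0 : ℝ) < 2 * Real.pi),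
        abs_of_nonneg (by positivity : (0 : ℝ) ≤ (j : ℝ))]
      have h4 : (j : ℝ) * |θ| ≤ D / 6 * (1 / ((D : ℝ) + 1)) := by
        apply mul_le_mul hj' hle (abs_nonneg _) (by positivity)
      have h5 : (D : ℝ) / 6 * (1 / ((D : ℝ) + 1)) ≤ 1 / 6 := by
        rw [mul_one_div, div_le_iff₀ hD']
        linarith
      have h6 : 2 * Real.pi * ((j : ℝ) * |θ|) ≤ 2 * Real.pi * (1 / 6) := by
        apply mul_le_mul_of_nonneg_left (h4.trans h5) (by positivity)
      linarith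
    apply Real.cos_le_cos_of_nonneg_of_le_pi (abs_nonneg _) _ hjθ
    linarith [Real.pi_pos]
  calc ((D / 6 + 1 : ℕ) : ℝ) / 2 = ∑ j ∈ range (D / 6 + 1), (1 : ℝ) / 2 := by
        rw [Finset.sum_const, Finset.card_range, nsmul_eq_mul]
        ring
    _ ≤ _ := Finset.sum_le_sum hterm

theorem roth_lower : ∃ c : ℝ, 0 < c ∧ ∀ f : ℕ → ℤ, (∀ n, f n = 1 ∨ f n = -1) → ∀ D : ℕ, 1 ≤ D →
    ∃ a d N : ℕ, 1 ≤ a ∧ 1 ≤ d ∧ d ≤ D ∧
      c * Real.sqrt D ≤ |((∑ j ∈ range N, f (a + j * d) : ℤ) : ℝ)| := by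
  refine ⟨1 / 20, by norm_num, fun f hf D hD => ?_⟩
  by_contra hcon
  push Not at hcon
  set N := 2 * D ^ 2 with hN
  set ℓ := D / 6 + 1 with hℓ
  have hDD : D ≤ D ^ 2 := by nlinarith
  have hℓD : ℓ * D ≤ 2 * D ^ 2 := by
    have : ℓ ≤ 2 * D := by omega
    nlinarith
  set M := N + ℓ * D + 1 with hM
  have hM5 : M ≤ 5 * D ^ 2 := by
    have : 1 ≤ D ^ 2 := Nat.one_le_pow _ _ hD
    omega
  have hM0 : 0 < M := by omega
  have hω := Complex.isPrimitiveRoot_exp M hM0.ne'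
  set ω := Complex.exp (2 * Real.pi * Complex.I / M) with hωdef
  have hn : ‖ω‖ = 1 := Complex.norm_eq_one_of_pow_eq_one hω.pow_eq_one hM0.ne'
  set P : ℂ[X] := ∑ x ∈ Icc 1 N, C ((f x : ℤ) : ℂ) * X ^ x with hP
  have hPdeg : P.natDegree ≤ N := by
    apply Polynomial.natDegree_sum_le_of_forall_le
    intro x hx
    refine (Polynomial.natDegree_C_mul_X_pow_le _ _).trans (Finset.mem_Icc.mp hx).2
  let Q : ℕ → ℂ[X] := fun d => ∑ j ∈ range ℓ, (X : ℂ[X]) ^ (j * d)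
  have hQdeg : ∀ d ∈ Icc 1 D, (Q d).natDegree ≤ ℓ * D := by
    intro d hd
    apply Polynomial.natDegree_sum_le_of_forall_le
    intro j hj
    rw [Polynomial.natDegree_X_pow]
    exact Nat.mul_le_mul (Finset.mem_range.mp hj).le (Finset.mem_Icc.mp hd).2
  have hPcoeff : ∀ a, P.coeff a = if a ∈ Icc 1 N then ((f a : ℤ) : ℂ) else 0 := by
    intro a
    rw [hP, Polynomial.finsetSum_coeff]
    simp only [Polynomial.coeff_C_mul, Polynomial.coeff_X_pow, mul_ite, mul_one, mul_zero]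
    rw [Finset.sum_ite_eq]
  -- mass of P
  have hmass : ∑ a ∈ range M, ‖P.coeff a‖ ^ 2 = N := by
    have h1 : ∀ a ∈ range M, ‖P.coeff a‖ ^ 2 = if a ∈ Icc 1 N then (1 : ℝ) else 0 := by
      intro a _
      rw [hPcoeff]
      split_ifs with h
      · rcases hf a with h2 | h2 <;> rw [h2] <;> simp
      · simp
    rw [Finset.sum_congr rfl h1, ← Finset.sum_filter]
    have h2 : (range M).filter (fun a => a ∈ Icc 1 N) = Icc 1 N := by
      ext a
      rw [Finset.mem_filter, Finset.mem_range, Finset.mem_Icc]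
      omega
    rw [h2]
    simp
  -- upper bound
  have hup : ∀ d ∈ Icc 1 D, ∑ a ∈ range M, ‖(Q d * P).coeff a‖ ^ 2 ≤ M * (D / 400) := by
    intro d hd
    have h1 : ∀ a ∈ range M, ‖(Q d * P).coeff a‖ ^ 2 ≤ (D : ℝ) / 400 := by
      intro a _
      obtain ⟨a', n, ha', he⟩ := roth_coeff f N ℓ d a (Finset.mem_Icc.mp hd).1
      have he' : (Q d * P).coeff a = ((∑ j ∈ range n, f (a' + j * d) : ℤ) : ℂ) := he
      rw [he', Complex.norm_intCast]
      have h2 := hcon a' d n ha' (Finset.mem_Icc.mp hd).1 (Finset.mem_Icc.mp hd).2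
      have h3 : |((∑ j ∈ range n, f (a' + j * d) : ℤ) : ℝ)| ^ 2 ≤ (1 / 20 * Real.sqrt D) ^ 2 :=
        pow_le_pow_left₀ (abs_nonneg _) h2.le 2
      rw [mul_pow, Real.sq_sqrt (by positivity)] at h3
      linarith
    calc _ ≤ ∑ a ∈ range M, (D : ℝ) / 400 := Finset.sum_le_sum h1
      _ = M * (D / 400) := by rw [Finset.sum_const, Finset.card_range, nsmul_eq_mul]
  have hup2 : ∑ d ∈ Icc 1 D, ∑ a ∈ range M, ‖(Q d * P).coeff a‖ ^ 2 ≤ D * (M * (D / 400)) := by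
    calc _ ≤ ∑ d ∈ Icc 1 D, (M : ℝ) * (D / 400) := Finset.sum_le_sum hup
      _ = D * (M * (D / 400)) := by
        rw [Finset.sum_const, Nat.card_Icc, nsmul_eq_mul, Nat.add_sub_cancel]
  -- Parseval
  have hpar : ∀ d ∈ Icc 1 D, (M : ℝ) * ∑ a ∈ range M, ‖(Q d * P).coeff a‖ ^ 2 =
      ∑ k ∈ range M, ‖(Q d).eval (ω ^ k)‖ ^ 2 * ‖P.eval (ω ^ k)‖ ^ 2 := by
    intro d hd
    rw [← roth_parseval hω hn]
    · apply Finset.sum_congr rfl
      intro k _
      rw [Polynomial.eval_mul, norm_mul, mul_pow]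
    · refine lt_of_le_of_lt Polynomial.natDegree_mul_le ?_
      have := hQdeg d hd
      omega
  have hlow : (M : ℝ) * (((ℓ : ℝ) / 2) ^ 2 * N) ≤
      M * ∑ d ∈ Icc 1 D, ∑ a ∈ range M, ‖(Q d * P).coeff a‖ ^ 2 := by
    calc (M : ℝ) * (((ℓ : ℝ) / 2) ^ 2 * N) = ((ℓ : ℝ) / 2) ^ 2 * (M * ∑ a ∈ range M,
          ‖P.coeff a‖ ^ 2) := by rw [hmass]; ring
      _ = ((ℓ : ℝ) / 2) ^ 2 * ∑ k ∈ range M, ‖P.eval (ω ^ k)‖ ^ 2 := by
          rw [roth_parseval hω hn P (by omega)]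
      _ = ∑ k ∈ range M, ((ℓ : ℝ) / 2) ^ 2 * ‖P.eval (ω ^ k)‖ ^ 2 := by rw [Finset.mul_sum]
      _ ≤ ∑ k ∈ range M, ∑ d ∈ Icc 1 D, ‖(Q d).eval (ω ^ k)‖ ^ 2 * ‖P.eval (ω ^ k)‖ ^ 2 := by
          apply Finset.sum_le_sum
          intro k _
          obtain ⟨d, hd, hle⟩ := roth_kernel D M k hD hM0
          have h1 : ((ℓ : ℝ) / 2) ^ 2 ≤ ‖(Q d).eval (ω ^ k)‖ ^ 2 :=
            pow_le_pow_left₀ (by positivity) hle 2
          calc ((ℓ : ℝ) / 2) ^ 2 * ‖P.eval (ω ^ k)‖ ^ 2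
              ≤ ‖(Q d).eval (ω ^ k)‖ ^ 2 * ‖P.eval (ω ^ k)‖ ^ 2 := by gcongr
            _ ≤ _ := Finset.single_le_sum
              (f := fun d => ‖(Q d).eval (ω ^ k)‖ ^ 2 * ‖P.eval (ω ^ k)‖ ^ 2)
              (fun d _ => by positivity) hd
      _ = ∑ d ∈ Icc 1 D, ∑ k ∈ range M, ‖(Q d).eval (ω ^ k)‖ ^ 2 * ‖P.eval (ω ^ k)‖ ^ 2 :=
          Finset.sum_comm
      _ = ∑ d ∈ Icc 1 D, (M : ℝ) * ∑ a ∈ range M, ‖(Q d * P).coeff a‖ ^ 2 :=
          Finset.sum_congr rfl fun d hd => (hpar d hd).symm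
      _ = _ := by rw [Finset.mul_sum]
  have hMpos : (0 : ℝ) < M := by exact_mod_cast hM0
  have hlow2 := le_of_mul_le_mul_left hlow hMpos
  have hfin := hlow2.trans hup2
  have hℓ' : (D : ℝ) / 6 ≤ ℓ := by
    have h1 : D < 6 * ℓ := by omega
    have h2 : (D : ℝ) < 6 * ℓ := by exact_mod_cast h1
    linarith
  have hN' : (N : ℝ) = 2 * (D : ℝ) ^ 2 := by rw [hN]; push_cast; ring
  have hM' : (M : ℝ) ≤ 5 * (D : ℝ) ^ 2 := by exact_mod_cast hM5
  have hD1 : (1 : ℝ) ≤ D := by exact_mod_cast hD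
  rw [hN'] at hfin
  have h1 : ((D : ℝ) / 6 / 2) ^ 2 * (2 * (D : ℝ) ^ 2) ≤ ((ℓ : ℝ) / 2) ^ 2 * (2 * (D : ℝ) ^ 2) := by
    gcongr
  have h2 : (D : ℝ) * (M * (D / 400)) ≤ D * (5 * (D : ℝ) ^ 2 * (D / 400)) := by
    gcongr
  have h3 : (D : ℝ) ^ 4 / 72 ≤ (D : ℝ) ^ 4 / 80 := by
    calc (D : ℝ) ^ 4 / 72 = ((D : ℝ) / 6 / 2) ^ 2 * (2 * (D : ℝ) ^ 2) := by ring
      _ ≤ D * (5 * (D : ℝ) ^ 2 * (D / 400)) := (h1.trans hfin).trans h2
      _ = (D : ℝ) ^ 4 / 80 := by ring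
  have h4 : (0 : ℝ) < (D : ℝ) ^ 4 := by positivity
  linarith

end MP02f3ba
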